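import Pool.Agent.Helper30.Perc.Main

/-! Unimodular transitive groups of automorphisms have the placement property. -/

namespace Pool.Agent.Helper30.Perc

open Finset

/-- the orbit of `y` under the stabiliser of `x` in `Γ` -/
def orb {V : Type} {G : SimpleGraph V} (Γ : Subgroup (G ≃g G)) (x y : V) : Set V :=
  {z | ∃ φ ∈ Γ, φ x = x ∧ φ y = z}

variable {V : Type} {G : SimpleGraph V}

lemma iso_mul_apply (φ ψ : G ≃g G) (v : V) : (φ * ψ) v = φ (ψ v) := rfl

lemma iso_inv_apply_self (φ : G ≃g G) (v : V) : φ⁻¹ (φ v) = v := φ.symm_apply_apply v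

lemma iso_apply_inv_self (φ : G ≃g G) (v : V) : φ (φ⁻¹ v) = v := φ.apply_symm_apply v

lemma iso_dist (φ : G ≃g G) (hconn : G.Connected) (a b : V) : G.dist (φ a) (φ b) ≤ G.dist a b := by
  obtain ⟨w, hw⟩ := hconn.exists_walk_length_eq_dist a b
  have := SimpleGraph.dist_le (w.map φ.toHom)
  rw [SimpleGraph.Walk.length_map, hw] at this
  exact this

variable [DecidableEq V] [G.LocallyFinite]

lemma orb_finite (hconn : G.Connected) (d : ℕ) (hd : ∀ v, (G.neighborFinset v).card ≤ d)
    (Γ : Subgroup (G ≃g G)) (x y : V) : (orb Γ x y).Finite := by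
  obtain ⟨b, hb, -⟩ := ball_bound G hconn d hd x (G.dist x y)
  refine (finite_toSet b).subset ?_
  rintro z ⟨φ, -, h1, rfl⟩
  refine hb _ ?_
  have := iso_dist φ hconn x y
  rw [h1] at this
  exact this

theorem placeable_of_unimodular (hconn : G.Connected) (d : ℕ)
    (hd : ∀ v, (G.neighborFinset v).card ≤ d) (Γ : Subgroup (G ≃g G))
    (htr : ∀ u v : V, ∃ φ ∈ Γ, φ u = v)
    (huni : ∀ x y : V, (orb Γ x y).ncard = (orb Γ y x).ncard) (o : V) : Placeable G o := by
  classical
  intro V0 N Z hlt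
  by_contra hcon
  push Not at hcon
  -- the sets of restricted maps
  set Ψ : V → Set (V0 → V) := fun x => {ψ | ∃ φ ∈ Γ, φ o = x ∧ ∀ u : V0, ψ u = φ u} with hΨ
  have hΨfin : ∀ x, (Ψ x).Finite := by
    intro x
    choose ball hball using fun u : V0 => ball_bound G hconn d hd x (G.dist o u)
    refine (Set.Finite.pi' fun u : V0 => finite_toSet (ball u)).subset ?_
    rintro ψ ⟨φ, -, h1, h2⟩ u
    rw [h2 u]
    refine (hball u).1 _ ?_
    rw [← h1]
    exact iso_dist φ hconn o u
  have hΨne : ∀ x, 0 < (Ψ x).ncard := by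
    intro x
    rw [Set.ncard_pos (hΨfin x)]
    obtain ⟨φ, h1, h2⟩ := htr o x
    exact ⟨fun u => φ u, φ, h1, h2, fun u => rfl⟩
  set F : V → V0 → V → Set (V0 → V) := fun x u z => {ψ | ψ ∈ Ψ x ∧ ψ u = z} with hF
  have hFfin : ∀ x u z, (F x u z).Finite := fun x u z => (hΨfin x).subset fun ψ h => h.1
  -- fibres over one orbit have the same size
  have hfib : ∀ x u z, (orb Γ x z).ncard * (F x u z).ncard ≤ (Ψ x).ncard := by
    intro x u z
    have horb := orb_finite hconn d hd Γ x z
    have h1 : ∀ z' ∈ horb.toFinset, (F x u z).ncard ≤ (F x u z').ncard := by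
      intro z' hz'
      rw [Set.Finite.mem_toFinset] at hz'
      obtain ⟨g, hg, hgx, hgz⟩ := hz'
      refine Set.ncard_le_ncard_of_injOn (fun ψ v => g (ψ v)) ?_ ?_ (hFfin x u z')
      · rintro ψ ⟨⟨φ, h1, h2, h3⟩, h4⟩
        refine ⟨⟨g * φ, Γ.mul_mem hg h1, ?_, ?_⟩, ?_⟩
        · rw [iso_mul_apply, h2, hgx]
        · intro v
          rw [iso_mul_apply, ← h3 v]
        · rw [← hgz, ← h4]
      · intro ψ _ ψ' _ h
        funext v
        exact g.injective (congrFun h v)
    have h2 : ∑ z' ∈ horb.toFinset, (F x u z').ncard ≤ (Ψ x).ncard := by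
      have e : ∀ z', (F x u z').ncard = (hFfin x u z').toFinset.card := fun z' =>
        Set.ncard_eq_toFinset_card _ (hFfin x u z')
      simp only [e]
      rw [← card_biUnion, Set.ncard_eq_toFinset_card _ (hΨfin x)]
      · refine card_le_card ?_
        intro ψ hψ
        rw [mem_biUnion] at hψ
        obtain ⟨z', -, hψ⟩ := hψ
        rw [Set.Finite.mem_toFinset] at hψ ⊢
        exact hψ.1
      · intro a _ a' _ hne
        rw [Function.onFun, disjoint_left]
        intro ψ h1 h2
        rw [Set.Finite.mem_toFinset] at h1 h2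
        exact hne (h1.2.symm.trans h2.2)
    calc (orb Γ x z).ncard * (F x u z).ncard = ∑ _z' ∈ horb.toFinset, (F x u z).ncard := by
          rw [sum_const, smul_eq_mul, Set.ncard_eq_toFinset_card _ horb]
      _ ≤ _ := (sum_le_sum h1).trans h2
  set D : V0 → V → Set V := fun u z => {x | ∃ φ ∈ Γ, φ o = x ∧ φ u = z} with hD
  have hFD : ∀ x u z, x ∉ D u z → (F x u z).ncard = 0 := by
    intro x u z hx
    have : F x u z = ∅ := by
      rw [Set.eq_empty_iff_forall_notMem]
      rintro ψ ⟨⟨φ, h1, h2, h3⟩, h4⟩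
      exact hx ⟨φ, h1, h2, by rw [← h3 u, h4]⟩
    rw [this, Set.ncard_empty]
  have horbpos : ∀ x z, 0 < (orb Γ x z).ncard := by
    intro x z
    rw [Set.ncard_pos (orb_finite hconn d hd Γ x z)]
    exact ⟨z, 1, Γ.one_mem, rfl, rfl⟩
  -- every x in N
  have hx : ∀ x ∈ N, (1 : ℝ) ≤ ∑ u : V0, ∑ z ∈ Z,
      if x ∈ D u z then (1 : ℝ) / (orb Γ x z).ncard else 0 := by
    intro x hxN
    have h1 : (Ψ x).ncard ≤ ∑ u : V0, ∑ z ∈ Z, (F x u z).ncard := by
      have h2 : (hΨfin x).toFinset ⊆ (univ : Finset V0).biUnion fun u => Z.biUnion fun z =>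
          (hFfin x u z).toFinset := by
        intro ψ hψ
        rw [Set.Finite.mem_toFinset] at hψ
        obtain ⟨φ, h1, h2, h3⟩ := hψ
        obtain ⟨u, hu, huZ⟩ := hcon φ (h2 ▸ hxN)
        rw [mem_biUnion]
        refine ⟨⟨u, hu⟩, mem_univ _, ?_⟩
        rw [mem_biUnion]
        refine ⟨φ u, huZ, ?_⟩
        rw [Set.Finite.mem_toFinset]
        exact ⟨⟨φ, h1, h2, h3⟩, h3 ⟨u, hu⟩⟩
      rw [Set.ncard_eq_toFinset_card _ (hΨfin x)]
      refine (card_le_card h2).trans (card_biUnion_le.trans (sum_le_sum fun u _ => ?_))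
      refine card_biUnion_le.trans (sum_le_sum fun z _ => ?_)
      rw [Set.ncard_eq_toFinset_card _ (hFfin x u z)]
    have hpos : (0 : ℝ) < (Ψ x).ncard := by exact_mod_cast hΨne x
    have h3 : ((Ψ x).ncard : ℝ) ≤ ∑ u : V0, ∑ z ∈ Z,
        (if x ∈ D u z then (1 : ℝ) / (orb Γ x z).ncard else 0) * (Ψ x).ncard := by
      have h4 : ((Ψ x).ncard : ℝ) ≤ ∑ u : V0, ∑ z ∈ Z, ((F x u z).ncard : ℝ) := by
        exact_mod_cast h1
      refine h4.trans (sum_le_sum fun u _ => sum_le_sum fun z _ => ?_)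
      by_cases hxD : x ∈ D u z
      · rw [if_pos hxD]
        have h5 : ((orb Γ x z).ncard : ℝ) * (F x u z).ncard ≤ (Ψ x).ncard := by
          exact_mod_cast hfib x u z
        have h6 : (0 : ℝ) < (orb Γ x z).ncard := by exact_mod_cast horbpos x z
        rw [one_div, inv_mul_eq_div, le_div_iff₀ h6]
        linarith
      · rw [if_neg hxD, hFD x u z hxD]
        simp
    simp only [← sum_mul] at h3
    exact le_of_mul_le_mul_right (by linarith) hpos
  -- sum over N
  have hsum : (N.card : ℝ) ≤ ∑ u : V0, ∑ z ∈ Z, ∑ x ∈ N,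
      if x ∈ D u z then (1 : ℝ) / (orb Γ x z).ncard else 0 := by
    calc (N.card : ℝ) = ∑ _x ∈ N, (1 : ℝ) := by simp
      _ ≤ ∑ x ∈ N, ∑ u : V0, ∑ z ∈ Z,
          (if x ∈ D u z then (1 : ℝ) / (orb Γ x z).ncard else 0) := sum_le_sum hx
      _ = _ := by
        rw [sum_comm]
        refine sum_congr rfl fun u _ => ?_
        rw [sum_comm]
  have hone : ∀ u : V0, ∀ z ∈ Z, ∑ x ∈ N,
      (if x ∈ D u z then (1 : ℝ) / (orb Γ x z).ncard else 0) ≤ 1 := by
    intro u z _
    rw [← sum_filter]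
    by_cases hne : (N.filter fun x => x ∈ D u z).Nonempty
    · obtain ⟨x0, hx0⟩ := hne
      rw [mem_filter] at hx0
      have hDorb : ∀ x ∈ D u z, D u z = orb Γ z x := by
        rintro x ⟨φ, h1, h2, h3⟩
        ext y
        constructor
        · rintro ⟨φ', h1', h2', h3'⟩
          refine ⟨φ' * φ⁻¹, Γ.mul_mem h1' (Γ.inv_mem h1), ?_, ?_⟩
          · rw [iso_mul_apply, ← h3, iso_inv_apply_self, h3', h3]
          · rw [iso_mul_apply, ← h2, iso_inv_apply_self, h2']
        · rintro ⟨g, hg, h4, h5⟩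
          refine ⟨g * φ, Γ.mul_mem hg h1, ?_, ?_⟩
          · rw [iso_mul_apply, h2, h5]
          · rw [iso_mul_apply, h3, h4]
      have hcard : ∀ x ∈ D u z, (orb Γ x z).ncard = (D u z).ncard := by
        intro x hx
        rw [huni x z, ← hDorb x hx]
      have hDfin : (D u z).Finite := by
        rw [hDorb x0 hx0.2]
        exact orb_finite hconn d hd Γ z x0
      have hDpos : (0 : ℝ) < (D u z).ncard := by
        have := (Set.ncard_pos hDfin).2 ⟨x0, hx0.2⟩
        exact_mod_cast this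
      calc ∑ x ∈ N.filter (fun x => x ∈ D u z), (1 : ℝ) / (orb Γ x z).ncard
          = ∑ x ∈ N.filter (fun x => x ∈ D u z), (1 : ℝ) / (D u z).ncard := by
            refine sum_congr rfl fun x hx => ?_
            rw [mem_filter] at hx
            rw [hcard x hx.2]
        _ = (N.filter fun x => x ∈ D u z).card / (D u z).ncard := by
            rw [sum_const, nsmul_eq_mul, mul_one_div]
        _ ≤ 1 := by
            rw [div_le_one hDpos]
            have h7 : (N.filter fun x => x ∈ D u z).card ≤ (D u z).ncard := by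
              rw [Set.ncard_eq_toFinset_card _ hDfin]
              refine card_le_card ?_
              intro x hx
              rw [mem_filter] at hx
              rw [Set.Finite.mem_toFinset]
              exact hx.2
            exact_mod_cast h7
    · rw [not_nonempty_iff_eq_empty] at hne
      rw [hne]
      simp
  have hfinal : (N.card : ℝ) ≤ V0.card * Z.card := by
    refine hsum.trans ?_
    calc ∑ u : V0, ∑ z ∈ Z, ∑ x ∈ N,
          (if x ∈ D u z then (1 : ℝ) / (orb Γ x z).ncard else 0)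
        ≤ ∑ _u : V0, ∑ _z ∈ Z, (1 : ℝ) := sum_le_sum fun u _ => sum_le_sum fun z hz => hone u z hz
      _ = _ := by simp
  have : N.card ≤ V0.card * Z.card := by exact_mod_cast hfinal
  omega

end Pool.Agent.Helper30.Perc
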