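import Pool.Agent.Helper30.Perc.Grow

/-! Placing one more block. -/

namespace Pool.Agent.Helper30.Perc

open Finset

variable {V : Type} [DecidableEq V] (G : SimpleGraph V) [G.LocallyFinite]

lemma reach_vert (M : Finset (Sym2 V)) (o x : V)
    (h : (SimpleGraph.fromEdgeSet (M : Set (Sym2 V))).Reachable o x) : x = o ∨ x ∈ vert M := by
  have h' := h.symm
  obtain ⟨w⟩ := h'
  cases w with
  | nil => exact Or.inl rfl
  | cons hadj _ =>
    right
    rw [fes_adj] at hadj
    rw [mem_vert]
    exact ⟨_, hadj.1, by simp⟩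

/-- placement property: translates can be found avoiding a given finite set -/
def Placeable (G : SimpleGraph V) (o : V) : Prop :=
  ∀ V0 N Z : Finset V, V0.card * Z.card < N.card →
    ∃ φ : G ≃g G, φ o ∈ N ∧ ∀ u ∈ V0, φ u ∉ Z

theorem substep (hconn : G.Connected) (d : ℕ) (hd0 : 0 < d)
    (hd : ∀ v, (G.neighborFinset v).card ≤ d) (o : V) (hpl : Placeable G o)
    (h c1 A : ℝ) (hh : 0 < h) (hc1 : 0 < c1) (hA : 0 < A) (K : ℝ) (J1 J2 : ℕ)
    (hiso : ∀ W : Finset V, h * W.card ≤ cut G W)
    (hJ1 : d * 1 ≤ c1 * J1) (hJ1' : d * (2 * A / h) ≤ c1 * J1)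
    (hJ2 : K ≤ (1 + h / (2 * d)) ^ J2)
    (M0 : Finset (Sym2 V)) (hM0 : (M0 : Set (Sym2 V)) ⊆ G.edgeSet) (R m : ℕ) (hR : 0 < R)
    (hK : (2 * M0.card + 1) * ((2 + 2 * A) * (d + 1 : ℝ) ^ (2 * R)) < K)
    (M B : Finset (Sym2 V)) (hg : Good G o M0 R m M B)
    (hBM : (B.card : ℝ) ≤ A * M.card)
    (hcap : ∀ N : Finset V, Adm o M N → (B.card : ℝ) + c1 * M.card ≤ cut G N) :
    ∃ X : Finset (Sym2 V), X.card ≤ J1 + J2 + M0.card ∧ (X : Set (Sym2 V)) ⊆ G.edgeSet ∧
      Disjoint X (M ∪ B) ∧ Good G o M0 R (m + 1) (M ∪ X) B := by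
  obtain ⟨N, hN, hNc⟩ := growth G d hd0 hd o h c1 A hh hc1 hA K J1 J2 hiso hJ1 hJ1' hJ2 M B hBM hcap
  set F : Finset V := insert o (vert M ∪ vert B) with hF
  choose ball hball1 hball2 using fun z => ball_bound G hconn d hd z (2 * R)
  set Z : Finset V := F.biUnion ball with hZ
  set V0 : Finset V := insert o (vert M0) with hV0
  have hFc : (F.card : ℝ) ≤ (2 + 2 * A) * (M.card + 1) := by
    have h1 : F.card ≤ 2 * M.card + 2 * B.card + 1 := by
      refine (card_insert_le _ _).trans ?_
      have := card_union_le (vert M) (vert B)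
      have := card_vert M
      have := card_vert B
      omega
    have h2 : (F.card : ℝ) ≤ 2 * M.card + 2 * B.card + 1 := by exact_mod_cast h1
    have h3 : (0 : ℝ) ≤ M.card := by positivity
    nlinarith
  have hZc : (Z.card : ℝ) ≤ (2 + 2 * A) * (M.card + 1) * (d + 1 : ℝ) ^ (2 * R) := by
    have h1 : Z.card ≤ F.card * (d + 1) ^ (2 * R) := by
      refine card_biUnion_le.trans ?_
      calc ∑ z ∈ F, (ball z).card ≤ ∑ _z ∈ F, (d + 1) ^ (2 * R) := sum_le_sum fun z _ => hball2 z
        _ = _ := by rw [sum_const, smul_eq_mul]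
    have h2 : (Z.card : ℝ) ≤ F.card * (d + 1 : ℝ) ^ (2 * R) := by exact_mod_cast h1
    refine h2.trans ?_
    exact mul_le_mul_of_nonneg_right hFc (by positivity)
  have hV0c : (V0.card : ℝ) ≤ 2 * M0.card + 1 := by
    have h1 : V0.card ≤ 2 * M0.card + 1 := by
      refine (card_insert_le _ _).trans ?_
      have := card_vert M0
      omega
    exact_mod_cast h1
  have hlt : V0.card * Z.card < N.card := by
    have h1 : (V0.card : ℝ) * Z.card < N.card := by
      have hM1 : (0 : ℝ) < (M.card : ℝ) + 1 := by positivity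
      calc (V0.card : ℝ) * Z.card
          ≤ (2 * M0.card + 1) * ((2 + 2 * A) * (M.card + 1) * (d + 1 : ℝ) ^ (2 * R)) :=
            mul_le_mul hV0c hZc (by positivity) (by positivity)
        _ = ((2 * M0.card + 1) * ((2 + 2 * A) * (d + 1 : ℝ) ^ (2 * R))) * (M.card + 1) := by ring
        _ < K * (M.card + 1) := mul_lt_mul_of_pos_right hK hM1
        _ ≤ _ := hNc
    exact_mod_cast h1
  obtain ⟨φ, hφN, hφZ⟩ := hpl V0 N Z hlt
  obtain ⟨P, hP1, hP2, hP3, hP4⟩ := hN.re _ hφN
  have hFZ : ∀ z ∈ F, ∀ v, G.dist z v ≤ 2 * R → v ∈ Z := by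
    intro z hz v hv
    rw [hZ, mem_biUnion]
    exact ⟨z, hz, hball1 z v hv⟩
  have hfar : ∀ z ∈ F, ∀ u ∈ V0, 2 * R < G.dist z (φ u) := by
    intro z hz u hu
    by_contra hcon
    exact hφZ u hu (hFZ z hz _ (by omega))
  have hnF : ∀ u ∈ V0, φ u ∉ F := by
    intro u hu hmem
    have := hfar _ hmem u hu
    simp at this
  set M0' : Finset (Sym2 V) := M0.image (Sym2.map φ) with hM0'
  have hmem0 : ∀ a b, s(a, b) ∈ M0 → s(φ a, φ b) ∈ M0' := by
    intro a b hab
    rw [hM0', mem_image]
    exact ⟨_, hab, by simp⟩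
  have hM0'E : (M0' : Set (Sym2 V)) ⊆ G.edgeSet := by
    intro e he
    rw [mem_coe, hM0', mem_image] at he
    obtain ⟨e', he', rfl⟩ := he
    induction e' with
    | _ a b =>
      have : G.Adj a b := by simpa using hM0 (mem_coe.2 he')
      simpa using φ.map_adj_iff.2 this
  have hM0'B : Disjoint M0' B := by
    rw [disjoint_left]
    intro e he heB
    rw [hM0', mem_image] at he
    obtain ⟨e', he', rfl⟩ := he
    induction e' with
    | _ a b =>
      refine hnF a ?_ ?_
      · rw [hV0, mem_insert, mem_vert]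
        exact Or.inr ⟨_, he', by simp⟩
      · rw [hF, mem_insert, mem_union, mem_vert, mem_vert]
        exact Or.inr (Or.inr ⟨_, heB, by simp⟩)
  have hMX : M ∪ ((P ∪ M0') \ M) = M ∪ P ∪ M0' := by
    rw [union_sdiff_self_eq_union, union_assoc]
  refine ⟨(P ∪ M0') \ M, ?_, ?_, ?_, ?_⟩
  · refine (card_le_card sdiff_subset).trans ((card_union_le _ _).trans ?_)
    have : M0'.card ≤ M0.card := card_image_le
    omega
  · refine Set.Subset.trans (coe_subset.2 sdiff_subset) ?_
    rw [coe_union]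
    exact Set.union_subset hP2 hM0'E
  · rw [disjoint_union_right]
    refine ⟨sdiff_disjoint, ?_⟩
    refine Disjoint.mono_left sdiff_subset ?_
    rw [disjoint_union_left]
    exact ⟨hP3, hM0'B⟩
  · obtain ⟨ψ, hψ1, hψ2, hψ3⟩ := hg.fam
    rw [hMX]
    refine ⟨?_, ?_, Fin.cons φ ψ, ?_, ?_, ?_⟩
    · rw [coe_union, coe_union]
      exact Set.union_subset (Set.union_subset hg.hM hP2) hM0'E
    · rw [disjoint_union_left, disjoint_union_left]
      exact ⟨⟨hg.hdisj, hP3⟩, hM0'B⟩
    · refine Fin.cases ?_ ?_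
      · intro a b hab
        rw [Fin.cons_zero]
        exact mem_union_right _ (hmem0 a b hab)
      · intro i a b hab
        rw [Fin.cons_succ]
        exact mem_union_left _ (mem_union_left _ (hψ1 i a b hab))
    · refine Fin.cases ?_ ?_
      · rw [Fin.cons_zero]
        exact reach_mono subset_union_left hP4
      · intro i
        rw [Fin.cons_succ]
        exact reach_mono (subset_union_left.trans subset_union_left) (hψ2 i)
    · have hψF : ∀ i, ∀ u ∈ V0, ψ i u ∈ F := by
        intro i u hu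
        rw [hV0, mem_insert, mem_vert] at hu
        rw [hF, mem_insert, mem_union]
        rcases hu with rfl | ⟨e, he, hue⟩
        · rcases reach_vert M _ _ (hψ2 i) with h1 | h1
          · exact Or.inl h1
          · exact Or.inr (Or.inl h1)
        · obtain ⟨w, rfl⟩ := Sym2.mem_iff_exists.1 hue
          refine Or.inr (Or.inl ?_)
          rw [mem_vert]
          exact ⟨_, hψ1 i _ _ he, by simp⟩
      intro i j
      refine Fin.cases ?_ ?_ i
      · refine Fin.cases ?_ ?_ j
        · intro hne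
          exact absurd rfl hne
        · intro j _ u hu u' hu'
          rw [Fin.cons_zero, Fin.cons_succ, SimpleGraph.dist_comm]
          exact (hfar _ (hψF j u' hu') u hu).le
      · intro i
        refine Fin.cases ?_ ?_ j
        · intro _ u hu u' hu'
          rw [Fin.cons_zero, Fin.cons_succ]
          exact (hfar _ (hψF i u hu) u' hu').le
        · intro j hne u hu u' hu'
          rw [Fin.cons_succ, Fin.cons_succ]
          exact hψ3 i j (fun h => hne (by rw [h])) u hu u' hu'

end Pool.Agent.Helper30.Perc
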