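import Mathlib

/-! Edge boundaries and additivity of cut capacities of well separated blocks. -/

namespace Pool.Agent.Helper30.Perc

open Finset

variable {V : Type} [DecidableEq V] (G : SimpleGraph V) [G.LocallyFinite]

/-- number of boundary edges of a finite vertex set -/
def cut (W : Finset V) : ℕ := ∑ a ∈ W, (G.neighborFinset a \ W).card

/-- the boundary edges of a finite vertex set -/
def bdE (W : Finset V) : Finset (Sym2 V) :=
  W.biUnion fun a => (G.neighborFinset a \ W).image fun b => s(a, b)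

lemma mem_bdE (W : Finset V) (e : Sym2 V) :
    e ∈ bdE G W ↔ ∃ a ∈ W, ∃ b, b ∉ W ∧ G.Adj a b ∧ e = s(a, b) := by
  simp only [bdE, mem_biUnion, mem_image, mem_sdiff, SimpleGraph.mem_neighborFinset]
  constructor
  · rintro ⟨a, ha, b, ⟨h1, h2⟩, rfl⟩
    exact ⟨a, ha, b, h2, h1, rfl⟩
  · rintro ⟨a, ha, b, h2, h1, rfl⟩
    exact ⟨a, ha, b, ⟨h1, h2⟩, rfl⟩

lemma card_bdE (W : Finset V) : (bdE G W).card = cut G W := by
  rw [bdE, card_biUnion]
  · refine sum_congr rfl fun a _ => ?_
    rw [card_image_of_injOn]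
    intro b _ b' _ h
    simp only [Sym2.eq_iff] at h
    rcases h with ⟨-, h⟩ | ⟨h1, h2⟩
    · exact h
    · exact h2.trans h1
  · intro a ha a' ha' hne
    rw [Function.onFun, Finset.disjoint_left]
    intro e he he'
    simp only [mem_image, mem_sdiff] at he he'
    obtain ⟨b, ⟨-, hb⟩, rfl⟩ := he
    obtain ⟨b', ⟨-, hb'⟩, h⟩ := he'
    rw [Sym2.eq_iff] at h
    rcases h with ⟨h1, h2⟩ | ⟨h1, h2⟩
    · exact hne h1.symm
    · exact hb (h1 ▸ ha')

/-- the vertex set `W` contains `o` and no edge of `M` joins it to its complement -/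
def Adm (o : V) (M : Finset (Sym2 V)) (W : Finset V) : Prop :=
  o ∈ W ∧ ∀ a b, s(a, b) ∈ M → a ∈ W → b ∈ W

theorem additivity (d : ℕ) (hd : ∀ v, (G.neighborFinset v).card ≤ d) {ι : Type*}
    [DecidableEq ι] (I : Finset ι)
    (δ : ι → V → ℕ) (R : ℕ) (hLip : ∀ i ∈ I, ∀ a b, G.Adj a b → δ i b ≤ δ i a + 1)
    (hdisj : ∀ i ∈ I, ∀ j ∈ I, ∀ v, δ i v < R → δ j v < R → i = j) (C0 : ℕ) (W : Finset V)
    (hcap : ∀ i ∈ I, ∀ r < R, C0 ≤ cut G (W.filter fun v => δ i v ≤ r)) :
    R * I.card * C0 ≤ R * cut G W + d * W.card := by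
  have h1 : ∀ i ∈ I, R * C0 ≤
      ∑ a ∈ W.filter (fun v => δ i v < R), (R * (G.neighborFinset a \ W).card + d) := by
    intro i hi
    have h2 : ∀ r ∈ range R, C0 ≤ ∑ a ∈ W.filter (fun v => δ i v < R),
        ((G.neighborFinset a \ W).card + if δ i a = r then d else 0) := by
      intro r hr
      rw [mem_range] at hr
      refine (hcap i hi r hr).trans ?_
      unfold cut
      calc ∑ a ∈ W.filter (fun v => δ i v ≤ r),
            (G.neighborFinset a \ (W.filter fun v => δ i v ≤ r)).card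
          ≤ ∑ a ∈ W.filter (fun v => δ i v ≤ r),
            ((G.neighborFinset a \ W).card + if δ i a = r then d else 0) := by
            refine sum_le_sum fun a ha => ?_
            rw [mem_filter] at ha
            by_cases har : δ i a = r
            · rw [if_pos har]
              refine (card_le_card sdiff_subset).trans ((hd a).trans (by omega))
            · rw [if_neg har, add_zero]
              refine card_le_card ?_
              intro b hb
              rw [mem_sdiff, mem_filter] at hb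
              rw [mem_sdiff]
              refine ⟨hb.1, fun hbW => hb.2 ⟨hbW, ?_⟩⟩
              have hadj : G.Adj a b := by simpa using hb.1
              have := hLip i hi a b hadj
              omega
        _ ≤ _ := by
            refine sum_le_sum_of_subset ?_
            intro a ha
            rw [mem_filter] at ha ⊢
            exact ⟨ha.1, by omega⟩
    have h3 : R * C0 = ∑ _r ∈ range R, C0 := by simp
    rw [h3]
    refine (sum_le_sum h2).trans ?_
    rw [sum_comm]
    refine sum_le_sum fun a ha => ?_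
    rw [mem_filter] at ha
    rw [sum_add_distrib, sum_const, card_range, smul_eq_mul, sum_ite_eq, if_pos]
    rw [mem_range]
    exact ha.2
  have h2 : I.card * (R * C0) ≤ ∑ i ∈ I,
      ∑ a ∈ W.filter (fun v => δ i v < R), (R * (G.neighborFinset a \ W).card + d) := by
    rw [← smul_eq_mul, ← sum_const]
    exact sum_le_sum h1
  have h3 : ∑ i ∈ I, ∑ a ∈ W.filter (fun v => δ i v < R),
      (R * (G.neighborFinset a \ W).card + d) ≤
      ∑ a ∈ W, (R * (G.neighborFinset a \ W).card + d) := by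
    rw [← sum_biUnion]
    · refine sum_le_sum_of_subset ?_
      intro a ha
      rw [mem_biUnion] at ha
      obtain ⟨i, -, ha⟩ := ha
      exact (mem_filter.1 ha).1
    · intro i hi j hj hne
      rw [Function.onFun, Finset.disjoint_left]
      intro v hv hv'
      exact hne (hdisj i hi j hj v (mem_filter.1 hv).2 (mem_filter.1 hv').2)
  have h4 : ∑ a ∈ W, (R * (G.neighborFinset a \ W).card + d) = R * cut G W + d * W.card := by
    rw [sum_add_distrib, ← mul_sum, sum_const, smul_eq_mul, cut, mul_comm W.card]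
  calc R * I.card * C0 = I.card * (R * C0) := by ring
    _ ≤ _ := h2.trans (h3.trans_eq h4)

lemma cut_map (φ : G ≃g G) (W : Finset V) :
    cut G (W.map φ.toEquiv.toEmbedding) = cut G W := by
  unfold cut
  rw [sum_map]
  refine sum_congr rfl fun a _ => ?_
  have key : G.neighborFinset (φ.toEquiv.toEmbedding a) \ W.map φ.toEquiv.toEmbedding =
      (G.neighborFinset a \ W).map φ.toEquiv.toEmbedding := by
    ext v
    simp only [mem_sdiff, mem_map, SimpleGraph.mem_neighborFinset]
    constructor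
    · rintro ⟨h1, h2⟩
      refine ⟨φ.symm v, ⟨?_, ?_⟩, by simp⟩
      · have : G.Adj (φ a) (φ (φ.symm v)) := by simpa using h1
        exact φ.map_adj_iff.1 this
      · intro h3
        exact h2 ⟨_, h3, by simp⟩
    · rintro ⟨w, ⟨h1, h2⟩, rfl⟩
      refine ⟨?_, ?_⟩
      · exact φ.map_adj_iff.2 h1
      · rintro ⟨w', h3, h4⟩
        have : w' = w := φ.toEquiv.injective h4
        exact h2 (this ▸ h3)
  rw [key, card_map]

lemma cap_translate (o : V) (M0 : Finset (Sym2 V)) (C0 : ℕ)
    (hcap : ∀ W : Finset V, Adm o M0 W → C0 ≤ cut G W) (φ : G ≃g G) (W : Finset V)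
    (h1 : φ o ∈ W) (h2 : ∀ a b, s(a, b) ∈ M0 → φ a ∈ W → φ b ∈ W) : C0 ≤ cut G W := by
  have h3 : cut G W = cut G (W.map φ.symm.toEquiv.toEmbedding) := (cut_map G φ.symm W).symm
  rw [h3]
  have hmem : ∀ v, v ∈ W.map φ.symm.toEquiv.toEmbedding ↔ φ v ∈ W := by
    intro v
    rw [mem_map]
    constructor
    · rintro ⟨w, hw, rfl⟩
      simpa using hw
    · intro h
      exact ⟨φ v, h, by simp⟩
  refine hcap _ ⟨(hmem _).2 h1, ?_⟩
  intro a b hab ha
  rw [hmem] at ha ⊢
  exact h2 a b hab ha

/-- vertices of a finite edge set -/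
def vert (M : Finset (Sym2 V)) : Finset V := M.biUnion Sym2.toFinset

lemma mem_vert (M : Finset (Sym2 V)) (v : V) : v ∈ vert M ↔ ∃ e ∈ M, v ∈ e := by
  simp [vert]

lemma card_vert (M : Finset (Sym2 V)) : (vert M).card ≤ 2 * M.card := by
  unfold vert
  refine card_biUnion_le.trans ?_
  calc ∑ e ∈ M, (Sym2.toFinset e).card ≤ ∑ _e ∈ M, 2 := by
        refine sum_le_sum fun e _ => ?_
        by_cases h : e.IsDiag
        · rw [Sym2.card_toFinset_of_isDiag _ h]; omega
        · rw [Sym2.card_toFinset_of_not_isDiag _ h]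
    _ = _ := by rw [sum_const, smul_eq_mul, mul_comm]

/-- A family of `m` well separated translated blocks inside Maker's edge set. -/
structure Good (o : V) (M0 : Finset (Sym2 V)) (R m : ℕ) (M B : Finset (Sym2 V)) : Prop where
  hM : (M : Set (Sym2 V)) ⊆ G.edgeSet
  hdisj : Disjoint M B
  fam : ∃ φ : Fin m → (G ≃g G), (∀ i, ∀ a b, s(a, b) ∈ M0 → s(φ i a, φ i b) ∈ M) ∧
    (∀ i, (SimpleGraph.fromEdgeSet (M : Set (Sym2 V))).Reachable o (φ i o)) ∧
    (∀ i j, i ≠ j → ∀ u ∈ insert o (vert M0), ∀ u' ∈ insert o (vert M0),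
      2 * R ≤ G.dist (φ i u) (φ j u'))

omit [DecidableEq V] in
lemma closed_reach (M : Finset (Sym2 V)) (W : Finset V) (hW : ∀ a b, s(a, b) ∈ M → a ∈ W → b ∈ W)
    (a b : V) (hab : (SimpleGraph.fromEdgeSet (M : Set (Sym2 V))).Reachable a b) (ha : a ∈ W) :
    b ∈ W := by
  obtain ⟨w⟩ := hab
  induction w with
  | nil => exact ha
  | cons hadj _ ih =>
    apply ih
    rw [SimpleGraph.fromEdgeSet_adj] at hadj
    exact hW _ _ (by exact_mod_cast hadj.1) ha

theorem Good.cap (hconn : G.Connected) (d : ℕ) (hd : ∀ v, (G.neighborFinset v).card ≤ d)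
    {o : V} {M0 : Finset (Sym2 V)} {R m : ℕ}
    {M B : Finset (Sym2 V)} (C0 : ℕ)
    (hcap : ∀ W : Finset V, Adm o M0 W → C0 ≤ cut G W)
    (hg : Good G o M0 R m M B) (W : Finset V) (hW : Adm o M W) :
    R * m * C0 ≤ R * cut G W + d * W.card := by
  obtain ⟨φ, hφ1, hφ2, hφ3⟩ := hg.fam
  have hne : (insert o (vert M0)).Nonempty := ⟨o, mem_insert_self _ _⟩
  have key := additivity G d hd (univ : Finset (Fin m))
    (fun i v => (insert o (vert M0)).inf' hne fun u => G.dist v (φ i u)) R ?_ ?_ C0 W ?_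
  · simpa using key
  · intro i _ a b hab
    obtain ⟨u, hu, hu'⟩ := exists_mem_eq_inf' hne fun u => G.dist a (φ i u)
    rw [hu']
    refine (inf'_le _ hu).trans ?_
    have h1 := hconn.dist_triangle (u := b) (v := a) (w := φ i u)
    have h2 : G.dist b a = 1 := SimpleGraph.dist_eq_one_iff_adj.2 hab.symm
    omega
  · intro i _ j _ v h1 h2
    by_contra hne'
    obtain ⟨u, hu, hu'⟩ := exists_mem_eq_inf' hne fun u => G.dist v (φ i u)
    obtain ⟨w, hw, hw'⟩ := exists_mem_eq_inf' hne fun u => G.dist v (φ j u)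
    rw [hu'] at h1
    rw [hw'] at h2
    have h3 := hφ3 i j hne' u hu w hw
    have h4 := hconn.dist_triangle (u := φ i u) (v := v) (w := φ j w)
    rw [SimpleGraph.dist_comm (u := φ i u) (v := v)] at h4
    omega
  · intro i _ r hr
    have h0 : ∀ u ∈ insert o (vert M0), ∀ r : ℕ,
        ((insert o (vert M0)).inf' hne fun u' => G.dist (φ i u) (φ i u')) ≤ r := by
      intro u hu r
      refine (inf'_le _ hu).trans ?_
      simp
    refine cap_translate G o M0 C0 hcap (φ i) _ ?_ ?_
    · rw [mem_filter]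
      exact ⟨closed_reach M W hW.2 o _ (hφ2 i) hW.1, h0 o (mem_insert_self _ _) r⟩
    · intro a b hab ha
      rw [mem_filter] at ha ⊢
      refine ⟨hW.2 _ _ (hφ1 i a b hab) ha.1, h0 b ?_ r⟩
      rw [mem_insert, mem_vert]
      exact Or.inr ⟨_, hab, by simp⟩

end Pool.Agent.Helper30.Perc
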