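import Pool.Agent.Helper30.Perc.Turn

/-! Choice of the constants. -/

namespace Pool.Agent.Helper30.Perc

open Finset Filter

variable {V : Type} [DecidableEq V] (G : SimpleGraph V) [G.LocallyFinite]

lemma exp_beats (x a b' η : ℝ) (hx : 0 < x) (hη : 0 < η) (ha : 0 ≤ a) (J1 : ℕ) :
    ∃ s0 : ℕ, ∀ s : ℕ, s0 ≤ s → ∃ J2 : ℕ, a * s + b' < (1 + x) ^ J2 ∧ (J1 + J2 : ℝ) ≤ η * s := by
  have h1 : Tendsto (fun n : ℕ => (n : ℝ) ^ 1 / (1 + x) ^ n) atTop (nhds 0) :=
    tendsto_pow_const_div_const_pow_of_one_lt 1 (by linarith)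
  have h0 : Tendsto (fun n : ℕ => (n : ℝ) ^ 0 / (1 + x) ^ n) atTop (nhds 0) :=
    tendsto_pow_const_div_const_pow_of_one_lt 0 (by linarith)
  have h2 : Tendsto (fun n : ℕ => (a / η) * ((n : ℝ) ^ 1 / (1 + x) ^ n) +
      (a * (J1 + 1) / η + b') * ((n : ℝ) ^ 0 / (1 + x) ^ n)) atTop (nhds 0) := by
    have := (h1.const_mul (a / η)).add (h0.const_mul (a * (J1 + 1) / η + b'))
    simpa using this
  have h3 : ∀ᶠ n : ℕ in atTop, (a / η) * ((n : ℝ) ^ 1 / (1 + x) ^ n) +
      (a * (J1 + 1) / η + b') * ((n : ℝ) ^ 0 / (1 + x) ^ n) < 1 :=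
    h2.eventually (gt_mem_nhds one_pos)
  obtain ⟨t0, ht0⟩ := eventually_atTop.1 h3
  refine ⟨⌈(t0 + J1 + 1 : ℝ) / η⌉₊, ?_⟩
  intro s hs
  have hs' : (t0 + J1 + 1 : ℝ) / η ≤ s := (Nat.le_ceil _).trans (by exact_mod_cast hs)
  rw [div_le_iff₀ hη] at hs'
  have h4 : t0 + J1 + 1 ≤ ⌊η * s⌋₊ := by
    refine Nat.le_floor ?_
    push_cast
    linarith
  refine ⟨⌊η * s⌋₊ - J1, ?_, ?_⟩
  · set J2 := ⌊η * s⌋₊ - J1 with hJ2
    have h5 := ht0 J2 (by omega)
    have hpos : (0 : ℝ) < (1 + x) ^ J2 := by positivity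
    have h6 : (η * s : ℝ) < J2 + J1 + 1 := by
      have := Nat.lt_floor_add_one (η * s)
      have e : (⌊η * s⌋₊ : ℝ) = J2 + J1 := by
        have : ⌊η * s⌋₊ = J2 + J1 := by omega
        exact_mod_cast this
      rw [e] at this
      linarith
    have h7 : (s : ℝ) ≤ (J2 + J1 + 1) / η := by
      rw [le_div_iff₀ hη]; linarith
    have h8 : a * s ≤ a * ((J2 + J1 + 1) / η) := mul_le_mul_of_nonneg_left h7 ha
    have h9 : (a / η) * ((J2 : ℝ) ^ 1 / (1 + x) ^ J2) +
      (a * (J1 + 1) / η + b') * ((J2 : ℝ) ^ 0 / (1 + x) ^ J2) =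
        (a * ((J2 + J1 + 1) / η) + b') / (1 + x) ^ J2 := by
      field_simp
      ring
    rw [h9, div_lt_one hpos] at h5
    linarith
  · have h5 : ((J1 + (⌊η * s⌋₊ - J1) : ℕ) : ℝ) ≤ η * s := by
      have e : J1 + (⌊η * s⌋₊ - J1) = ⌊η * s⌋₊ := by omega
      rw [e]
      exact Nat.floor_le (by positivity)
    exact_mod_cast h5

/-- there are `n` edges such that every admissible cut has at least `c` edges -/
def CapGE (o : V) (n : ℕ) (c : ℝ) : Prop :=
  ∃ M0 : Finset (Sym2 V), (M0 : Set (Sym2 V)) ⊆ G.edgeSet ∧ M0.card = n ∧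
    ∀ W : Finset V, Adm o M0 W → c ≤ cut G W

lemma CapGE.translate {o : V} {n : ℕ} {c : ℝ} (hc : CapGE G o n c) (φ : G ≃g G) :
    CapGE G (φ o) n c := by
  obtain ⟨M0, h1, h2, h3⟩ := hc
  refine ⟨M0.image (Sym2.map φ), ?_, ?_, ?_⟩
  · intro e he
    rw [mem_coe, mem_image] at he
    obtain ⟨e', he', rfl⟩ := he
    induction e' with
    | _ a b =>
      have : G.Adj a b := by simpa using h1 (mem_coe.2 he')
      simpa using φ.map_adj_iff.2 this
  · rw [card_image_of_injective, h2]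
    exact Sym2.map.injective φ.toEquiv.injective
  · intro W hW
    have key : ⌈c⌉₊ ≤ cut G W := by
      refine cap_translate G o M0 ⌈c⌉₊ ?_ φ W hW.1 ?_
      · intro W' hW'
        exact Nat.ceil_le.2 (h3 W' hW')
      · intro a b hab ha
        refine hW.2 _ _ ?_ ha
        rw [mem_image]
        exact ⟨_, hab, by simp⟩
    exact (Nat.le_ceil c).trans (by exact_mod_cast key)

theorem exists_data (hconn : G.Connected) (d : ℕ) (hd0 : 0 < d)
    (hd : ∀ v, (G.neighborFinset v).card ≤ d) (h : ℝ) (hh : 0 < h)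
    (hiso : ∀ W : Finset V, h * W.card ≤ cut G W) (hpl : ∀ o, Placeable G o)
    (htrans : ∀ u v : V, ∃ φ : G ≃g G, φ u = v) (o : V) (b ε : ℝ) (hε : 0 < ε) (hb : ε < b)
    (hfreq : ∃ᶠ n in atTop, CapGE G o n ((b - ε / 4) * n)) :
    ∃ p0 : ℕ, ∀ p : ℕ, p0 ≤ p → ∀ q : ℕ, (q : ℝ) < (b - ε) * p → ∀ v0 : V,
      ∃ (R C0 J1 J2 r : ℕ) (c1 A K : ℝ) (M0 : Finset (Sym2 V)),
        Data G v0 d R C0 J1 J2 r p q h c1 A K M0 ∧
          (b - ε) * p ≤ r * (C0 / (1 + d / (h * R))) := by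
  have hb0 : 0 < b := hε.trans hb
  have hdR : (0 : ℝ) < d := by exact_mod_cast hd0
  set R : ℕ := ⌈4 * b * d / (h * ε)⌉₊ + 1 with hR
  have hR0 : (0 : ℝ) < R := by rw [hR]; push_cast; positivity
  have hRge : 4 * b * d / (h * ε) ≤ R := by
    rw [hR]; push_cast
    have := Nat.le_ceil (4 * b * d / (h * ε))
    linarith
  have hθ : d / (h * R) ≤ ε / (4 * b) := by
    rw [div_le_div_iff₀ (by positivity) (by positivity)]
    rw [div_le_iff₀ (by positivity)] at hRge
    linarith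
  set c1 : ℝ := ε / 8 with hc1
  have hc1p : 0 < c1 := by positivity
  set J1 : ℕ := ⌈max (d * 1 / c1) (d * (2 * b / h) / c1)⌉₊ with hJ1
  have hJ1g : max (d * 1 / c1) (d * (2 * b / h) / c1) ≤ J1 := Nat.le_ceil _
  have hJ1a : (d : ℝ) * 1 ≤ c1 * J1 := by
    have := (le_max_left _ _).trans hJ1g
    rw [div_le_iff₀ hc1p] at this
    linarith
  have hJ1b : (d : ℝ) * (2 * b / h) ≤ c1 * J1 := by
    have := (le_max_right _ _).trans hJ1g
    rw [div_le_iff₀ hc1p] at this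
    linarith
  set β : ℝ := (2 + 2 * b) * (d + 1 : ℝ) ^ (2 * R) with hβ
  have hβ0 : 0 < β := by positivity
  set η : ℝ := ε / (8 * b) with hη
  have hη0 : 0 < η := by positivity
  have hbη : b * η = ε / 8 := by rw [hη]; field_simp
  have hη1 : η ≤ 1 := by
    rw [hη, div_le_one (by positivity)]; linarith
  obtain ⟨s0, hs0⟩ := exp_beats (h / (2 * d)) (2 * β) (β + 1) η (by positivity) hη0 (by positivity) J1
  obtain ⟨s, hcs, hs⟩ := (hfreq.and_eventually (eventually_ge_atTop (max s0 1))).exists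
  obtain ⟨M0, hM0E, hM0c, hM0cap⟩ := hcs
  have hs1 : 1 ≤ s := (le_max_right _ _).trans hs
  have hsR : (1 : ℝ) ≤ s := by exact_mod_cast hs1
  obtain ⟨J2, hJ2a, hJ2b⟩ := hs0 s ((le_max_left _ _).trans hs)
  set C0 : ℕ := ⌈(b - ε / 4) * s⌉₊ with hC0
  have hC0g : (b - ε / 4) * s ≤ C0 := Nat.le_ceil _
  have hC0l : (C0 : ℝ) ≤ b * s + 1 := by
    have h1 := Nat.ceil_lt_add_one (show (0 : ℝ) ≤ (b - ε / 4) * s by
      apply mul_nonneg <;> linarith)
    have h2 : (b - ε / 4) * s ≤ b * s :=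
      mul_le_mul_of_nonneg_right (by linarith) (by positivity)
    linarith
  set θ : ℝ := d / (h * R) with hθd
  have hθ0 : 0 < θ := by positivity
  have hbθ : b * θ ≤ ε / 4 := by
    have := mul_le_mul_of_nonneg_left hθ hb0.le
    have e : b * (ε / (4 * b)) = ε / 4 := by field_simp
    linarith
  set C1 : ℝ := C0 / (1 + θ) with hC1
  have hC1g : (b - ε / 2) * s ≤ C1 := by
    rw [hC1, le_div_iff₀ (by positivity)]
    refine le_trans ?_ hC0g
    have h0 : 0 ≤ ε * θ := by positivity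
    have h1 : (b - ε / 2) * (1 + θ) ≤ b - ε / 4 := by
      have e : (b - ε / 2) * (1 + θ) = b - ε / 2 + b * θ - ε * θ / 2 := by ring
      linarith
    calc (b - ε / 2) * s * (1 + θ) = (b - ε / 2) * (1 + θ) * s := by ring
      _ ≤ _ := mul_le_mul_of_nonneg_right h1 (by positivity)
  have hC1l : C1 ≤ b * s + 1 := by
    refine le_trans ?_ hC0l
    rw [hC1]
    exact div_le_self (by positivity) (by linarith)
  set L : ℕ := J1 + J2 + s with hL
  have hLR : (L : ℝ) ≤ (1 + η) * s := by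
    rw [hL]; push_cast; linarith
  have hLpos : (0 : ℝ) < L := by
    rw [hL]; push_cast; positivity
  refine ⟨⌈4 * (b * s + 1) / ε⌉₊ + 1, ?_⟩
  intro p hp q hq v0
  have hpR : 4 * (b * s + 1) / ε ≤ p := by
    have h1 := Nat.le_ceil (4 * (b * s + 1) / ε)
    have h2 : ((⌈4 * (b * s + 1) / ε⌉₊ + 1 : ℕ) : ℝ) ≤ p := by exact_mod_cast hp
    push_cast at h2
    linarith
  have hp0 : 0 < p := by omega
  have hpR0 : (0 : ℝ) < p := by exact_mod_cast hp0
  rw [div_le_iff₀ hε] at hpR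
  set r : ℕ := p / L with hr
  have hLN : 0 < L := by exact_mod_cast hLpos
  have hrL : r * L ≤ p := Nat.div_mul_le_self p L
  have hrg : (p : ℝ) < (r + 1) * L := by
    have : p < (r + 1) * L := by
      rw [hr]
      have h1 := Nat.div_add_mod p L
      have h2 := Nat.mod_lt p hLN
      have e : (p / L + 1) * L = L * (p / L) + L := by ring
      omega
    exact_mod_cast this
  -- the key inequality
  have hkey : (b - 7 * ε / 8) * p ≤ r * C1 := by
    have h1 : (b - 5 * ε / 8) * L ≤ C1 := by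
      refine le_trans ?_ hC1g
      have h2 : (b - 5 * ε / 8) * L ≤ (b - 5 * ε / 8) * ((1 + η) * s) :=
        mul_le_mul_of_nonneg_left hLR (by linarith)
      have h0 : 0 ≤ ε * η := by positivity
      have h3 : (b - 5 * ε / 8) * (1 + η) ≤ b - ε / 2 := by
        have e : (b - 5 * ε / 8) * (1 + η) = b - 5 * ε / 8 + b * η - 5 * (ε * η) / 8 := by ring
        linarith
      refine h2.trans ?_
      calc (b - 5 * ε / 8) * ((1 + η) * s) = (b - 5 * ε / 8) * (1 + η) * s := by ring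
        _ ≤ _ := mul_le_mul_of_nonneg_right h3 (by positivity)
    have h2 : (b - 5 * ε / 8) * p ≤ (r + 1) * C1 := by
      calc (b - 5 * ε / 8) * p ≤ (b - 5 * ε / 8) * ((r + 1) * L) :=
            mul_le_mul_of_nonneg_left hrg.le (by linarith)
        _ = (r + 1) * ((b - 5 * ε / 8) * L) := by ring
        _ ≤ (r + 1) * C1 := mul_le_mul_of_nonneg_left h1 (by positivity)
    have e1 : (b - 7 * ε / 8) * p = (b - 5 * ε / 8) * p - p * ε / 4 := by ring
    have e2 : ((r : ℝ) + 1) * C1 = r * C1 + C1 := by ring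
    linarith
  obtain ⟨φ, hφ⟩ := htrans o v0
  have hcapo : CapGE G o s ((b - ε / 4) * s) := ⟨M0, hM0E, hM0c, hM0cap⟩
  have hcapv := hcapo.translate G φ
  rw [hφ] at hcapv
  obtain ⟨M1, hM1E, hM1c, hM1cap⟩ := hcapv
  refine ⟨R, C0, J1, J2, r, c1, b, 2 * β * s + (β + 1), M1, ?_, ?_⟩
  · refine ⟨hconn, hd0, hd, hpl v0, hh, hc1p, hb0, by rw [hR]; omega, hiso, hJ1a, hJ1b, hJ2a.le,
      hM1E, ?_, ?_, hp0, ?_, ?_, ?_, ?_⟩
    · rw [hM1c]
      have e : (2 * (s : ℝ) + 1) * β = 2 * β * s + β := by ring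
      linarith
    · intro W hW
      exact Nat.ceil_le.2 (hM1cap W hW)
    · rw [hM1c]; exact hrL
    · have : (b - ε) * p ≤ b * p := mul_le_mul_of_nonneg_right (by linarith) hpR0.le
      linarith
    · have : q + c1 * p ≤ (b - 7 * ε / 8) * p := by
        have e : (b - 7 * ε / 8) * p = (b - ε) * p + ε / 8 * p := by ring
        rw [hc1, e]
        linarith
      exact this.trans hkey
    · rw [hM1c]
      have h1 : ((J1 : ℝ) + J2 + s) = L := by rw [hL]; push_cast; ring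
      rw [h1]
      refine le_trans ?_ hC1g
      have h2 : c1 * L ≤ c1 * ((1 + η) * s) := mul_le_mul_of_nonneg_left hLR hc1p.le
      have h3 : c1 * (1 + η) ≤ b - ε / 2 := by
        have h4 : ε / 8 * η ≤ ε / 8 * 1 := mul_le_mul_of_nonneg_left hη1 (by positivity)
        have e : ε / 8 * (1 + η) = ε / 8 + ε / 8 * η := by ring
        rw [hc1, e]
        linarith
      refine h2.trans ?_
      calc c1 * ((1 + η) * s) = c1 * (1 + η) * s := by ring
        _ ≤ _ := mul_le_mul_of_nonneg_right h3 (by positivity)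
  · refine le_trans ?_ hkey
    exact mul_le_mul_of_nonneg_right (by linarith) hpR0.le

end Pool.Agent.Helper30.Perc
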