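import Mathlib

/-! Maker-Breaker percolation games: definitions and two generic lemmas. -/

namespace Pool.Agent.Helper30.Perc

open Finset

/-- Maker, moving first, has a winning strategy in the `(p,q)`-percolation game on `G` with root
`v₀`: a strategy maps the list of Breaker's previous moves to Maker's next move; against every
sequence of legal moves of Breaker all her moves are legal (`p` unclaimed edges) and the component
of `v₀` in `G` minus the edges claimed by Breaker stays infinite. -/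
def MakerWins {V : Type} (G : SimpleGraph V) (v₀ : V) (p q : ℕ) : Prop :=
  ∃ σ : List (Finset (Sym2 V)) → Finset (Sym2 V),
    ∀ B : ℕ → Finset (Sym2 V), ∀ n : ℕ,
      (∀ k < n, (B k).card = q ∧ ((B k : Finset (Sym2 V)) : Set (Sym2 V)) ⊆ G.edgeSet ∧
        Disjoint ((B k : Finset (Sym2 V)) : Set (Sym2 V))
          ((⋃ i ≤ k, ((σ (List.ofFn (fun j : Fin i => B j.val)) : Finset (Sym2 V)) :
              Set (Sym2 V))) ∪
            ⋃ i < k, ((B i : Finset (Sym2 V)) : Set (Sym2 V)))) →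
      ((σ (List.ofFn (fun j : Fin n => B j.val))).card = p ∧
        ((σ (List.ofFn (fun j : Fin n => B j.val)) : Finset (Sym2 V)) : Set (Sym2 V)) ⊆
          G.edgeSet ∧
        Disjoint ((σ (List.ofFn (fun j : Fin n => B j.val)) : Finset (Sym2 V)) : Set (Sym2 V))
          ((⋃ i < n, ((σ (List.ofFn (fun j : Fin i => B j.val)) : Finset (Sym2 V)) :
              Set (Sym2 V))) ∪
            ⋃ i < n, ((B i : Finset (Sym2 V)) : Set (Sym2 V)))) ∧
      (((B n).card = q ∧ ((B n : Finset (Sym2 V)) : Set (Sym2 V)) ⊆ G.edgeSet ∧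
        Disjoint ((B n : Finset (Sym2 V)) : Set (Sym2 V))
          ((⋃ i ≤ n, ((σ (List.ofFn (fun j : Fin i => B j.val)) : Finset (Sym2 V)) :
              Set (Sym2 V))) ∪
            ⋃ i < n, ((B i : Finset (Sym2 V)) : Set (Sym2 V)))) →
        {w : V | (G.deleteEdges (⋃ i ≤ n,
          ((B i : Finset (Sym2 V)) : Set (Sym2 V)))).Reachable v₀ w}.Infinite)

/-- Breaker has a winning strategy in the `(p,q)`-percolation game on `G` with root `v₀`, Maker
moving first: against every sequence of moves of Maker there is a stage such that, if Maker's moves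
so far are legal, Breaker's replies are legal (`q` unclaimed edges each) and the component of `v₀`
in `G` minus the edges claimed by Breaker is finite. -/
def BreakerWins {V : Type} (G : SimpleGraph V) (v₀ : V) (p q : ℕ) : Prop :=
  ∃ τ : List (Finset (Sym2 V)) → Finset (Sym2 V),
    ∀ M : ℕ → Finset (Sym2 V), ∃ n : ℕ,
      (∀ k ≤ n, (M k).card = p ∧ ((M k : Finset (Sym2 V)) : Set (Sym2 V)) ⊆ G.edgeSet ∧
        Disjoint ((M k : Finset (Sym2 V)) : Set (Sym2 V))
          ((⋃ i < k, ((M i : Finset (Sym2 V)) : Set (Sym2 V))) ∪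
            ⋃ i < k, ((τ (List.ofFn (fun j : Fin (i + 1) => M j.val)) : Finset (Sym2 V)) :
              Set (Sym2 V)))) →
      (∀ k ≤ n, (τ (List.ofFn (fun j : Fin (k + 1) => M j.val))).card = q ∧
        ((τ (List.ofFn (fun j : Fin (k + 1) => M j.val)) : Finset (Sym2 V)) : Set (Sym2 V)) ⊆
          G.edgeSet ∧
        Disjoint ((τ (List.ofFn (fun j : Fin (k + 1) => M j.val)) : Finset (Sym2 V)) :
            Set (Sym2 V))
          ((⋃ i ≤ k, ((M i : Finset (Sym2 V)) : Set (Sym2 V))) ∪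
            ⋃ i < k, ((τ (List.ofFn (fun j : Fin (i + 1) => M j.val)) : Finset (Sym2 V)) :
              Set (Sym2 V)))) ∧
      {w : V | (G.deleteEdges (⋃ i ≤ n,
          ((τ (List.ofFn (fun j : Fin (i + 1) => M j.val)) : Finset (Sym2 V)) :
            Set (Sym2 V)))).Reachable v₀ w}.Finite

variable {V : Type}

/-- the state after a list of Breaker's moves, when Maker answers with `f` -/
noncomputable def gst [DecidableEq (Sym2 V)] (f : ℕ → Finset (Sym2 V) → Finset (Sym2 V) → Finset (Sym2 V))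
    (L : List (Finset (Sym2 V))) : ℕ × Finset (Sym2 V) × Finset (Sym2 V) :=
  L.foldl (fun (s : ℕ × Finset (Sym2 V) × Finset (Sym2 V)) (Y : Finset (Sym2 V)) =>
    (s.1 + 1, s.2.1 ∪ f s.1 s.2.1 s.2.2, s.2.2 ∪ Y)) (0, ∅, ∅)

lemma gst_succ [DecidableEq (Sym2 V)] (f : ℕ → Finset (Sym2 V) → Finset (Sym2 V) → Finset (Sym2 V))
    (B : ℕ → Finset (Sym2 V)) (n : ℕ) :
    gst f (List.ofFn (fun j : Fin (n + 1) => B j.val)) =
      ((gst f (List.ofFn (fun j : Fin n => B j.val))).1 + 1,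
        (gst f (List.ofFn (fun j : Fin n => B j.val))).2.1 ∪
          f (gst f (List.ofFn (fun j : Fin n => B j.val))).1
            (gst f (List.ofFn (fun j : Fin n => B j.val))).2.1
            (gst f (List.ofFn (fun j : Fin n => B j.val))).2.2,
        (gst f (List.ofFn (fun j : Fin n => B j.val))).2.2 ∪ B n) := by
  rw [List.ofFn_succ']
  simp [gst, List.foldl_append]

/-- A positional invariant gives Maker a winning strategy. -/
theorem makerWins_of_invariant (G : SimpleGraph V) (v₀ : V) (p q : ℕ)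
    (P : ℕ → Finset (Sym2 V) → Finset (Sym2 V) → Prop)
    (h0 : P 0 ∅ ∅)
    (hstep : ∀ k M B, P k M B → ∃ X : Finset (Sym2 V), X.card = p ∧ (X : Set (Sym2 V)) ⊆ G.edgeSet ∧
      Disjoint (X : Set (Sym2 V)) ((M : Set (Sym2 V)) ∪ B) ∧
      ∀ M' B' Y : Finset (Sym2 V), (M' : Set (Sym2 V)) = (M : Set (Sym2 V)) ∪ (X : Set (Sym2 V)) →
        (B' : Set (Sym2 V)) = (B : Set (Sym2 V)) ∪ (Y : Set (Sym2 V)) →
        Y.card = q → (Y : Set (Sym2 V)) ⊆ G.edgeSet →
        Disjoint (Y : Set (Sym2 V)) ((M' : Set (Sym2 V)) ∪ B) → P (k + 1) M' B')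
    (hinf : ∀ k M B, P k M B →
      {w : V | (G.deleteEdges (B : Set (Sym2 V))).Reachable v₀ w}.Infinite) :
    MakerWins G v₀ p q := by
  classical
  set f : ℕ → Finset (Sym2 V) → Finset (Sym2 V) → Finset (Sym2 V) := fun k M B =>
    if h : P k M B then (hstep k M B h).choose else ∅ with hf
  have hfs : ∀ k M B, P k M B → (f k M B).card = p ∧ (f k M B : Set (Sym2 V)) ⊆ G.edgeSet ∧
      Disjoint (f k M B : Set (Sym2 V)) ((M : Set (Sym2 V)) ∪ B) ∧
      ∀ M' B' Y : Finset (Sym2 V),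
        (M' : Set (Sym2 V)) = (M : Set (Sym2 V)) ∪ (f k M B : Set (Sym2 V)) →
        (B' : Set (Sym2 V)) = (B : Set (Sym2 V)) ∪ (Y : Set (Sym2 V)) →
        Y.card = q → (Y : Set (Sym2 V)) ⊆ G.edgeSet →
        Disjoint (Y : Set (Sym2 V)) ((M' : Set (Sym2 V)) ∪ B) → P (k + 1) M' B' := by
    intro k M B h
    have : f k M B = (hstep k M B h).choose := by simp [hf, h]
    rw [this]
    exact (hstep k M B h).choose_spec
  refine ⟨fun L => f (gst f L).1 (gst f L).2.1 (gst f L).2.2, ?_⟩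
  intro B n
  set S : ℕ → ℕ × Finset (Sym2 V) × Finset (Sym2 V) := fun m =>
    gst f (List.ofFn (fun j : Fin m => B j.val)) with hS
  have hS0 : S 0 = (0, ∅, ∅) := by simp [hS, gst]
  have hSs : ∀ m, S (m + 1) = ((S m).1 + 1, (S m).2.1 ∪ f (S m).1 (S m).2.1 (S m).2.2,
      (S m).2.2 ∪ B m) := fun m => gst_succ f B m
  have h1 : ∀ m, (S m).1 = m := by
    intro m
    induction m with
    | zero => rw [hS0]
    | succ m ih => rw [hSs]; simp [ih]
  have h2 : ∀ m, ((S m).2.1 : Set (Sym2 V)) =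
      ⋃ i < m, ((f (S i).1 (S i).2.1 (S i).2.2 : Finset (Sym2 V)) : Set (Sym2 V)) := by
    intro m
    induction m with
    | zero => rw [hS0]; simp
    | succ m ih => rw [hSs, Set.biUnion_lt_succ, ← ih]; simp
  have h3 : ∀ m, ((S m).2.2 : Set (Sym2 V)) =
      ⋃ i < m, ((B i : Finset (Sym2 V)) : Set (Sym2 V)) := by
    intro m
    induction m with
    | zero => rw [hS0]; simp
    | succ m ih => rw [hSs, Set.biUnion_lt_succ, ← ih]; simp
  have h4 : ∀ m, (⋃ i ≤ m, ((f (S i).1 (S i).2.1 (S i).2.2 : Finset (Sym2 V)) : Set (Sym2 V))) =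
      ((S (m + 1)).2.1 : Set (Sym2 V)) := by
    intro m
    rw [h2]
    simp only [Nat.lt_succ_iff]
  have h5 : ∀ m, (⋃ i ≤ m, ((B i : Finset (Sym2 V)) : Set (Sym2 V))) =
      ((S (m + 1)).2.2 : Set (Sym2 V)) := by
    intro m
    rw [h3]
    simp only [Nat.lt_succ_iff]
  change (∀ k < n, (B k).card = q ∧ ((B k : Finset (Sym2 V)) : Set (Sym2 V)) ⊆ G.edgeSet ∧
        Disjoint ((B k : Finset (Sym2 V)) : Set (Sym2 V))
          ((⋃ i ≤ k, ((f (S i).1 (S i).2.1 (S i).2.2 : Finset (Sym2 V)) : Set (Sym2 V))) ∪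
            ⋃ i < k, ((B i : Finset (Sym2 V)) : Set (Sym2 V)))) →
      ((f (S n).1 (S n).2.1 (S n).2.2).card = p ∧
        ((f (S n).1 (S n).2.1 (S n).2.2 : Finset (Sym2 V)) : Set (Sym2 V)) ⊆ G.edgeSet ∧
        Disjoint ((f (S n).1 (S n).2.1 (S n).2.2 : Finset (Sym2 V)) : Set (Sym2 V))
          ((⋃ i < n, ((f (S i).1 (S i).2.1 (S i).2.2 : Finset (Sym2 V)) : Set (Sym2 V))) ∪
            ⋃ i < n, ((B i : Finset (Sym2 V)) : Set (Sym2 V)))) ∧
      (((B n).card = q ∧ ((B n : Finset (Sym2 V)) : Set (Sym2 V)) ⊆ G.edgeSet ∧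
        Disjoint ((B n : Finset (Sym2 V)) : Set (Sym2 V))
          ((⋃ i ≤ n, ((f (S i).1 (S i).2.1 (S i).2.2 : Finset (Sym2 V)) : Set (Sym2 V))) ∪
            ⋃ i < n, ((B i : Finset (Sym2 V)) : Set (Sym2 V)))) →
        {w : V | (G.deleteEdges (⋃ i ≤ n,
          ((B i : Finset (Sym2 V)) : Set (Sym2 V)))).Reachable v₀ w}.Infinite)
  simp only [h4, h5, ← h2, ← h3]
  intro hB
  have hP : ∀ m ≤ n, P (S m).1 (S m).2.1 (S m).2.2 := by
    intro m
    induction m with
    | zero => intro _; rw [hS0]; exact h0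
    | succ m ih =>
      intro hm
      have ihm := ih (by omega)
      obtain ⟨hb1, hb2, hb3⟩ := hB m (by omega)
      have key := (hfs _ _ _ ihm).2.2.2 (S (m + 1)).2.1 (S (m + 1)).2.2 (B m)
        (by rw [hSs, Finset.coe_union]) (by rw [hSs, Finset.coe_union]) hb1 hb2 hb3
      rw [h1] at key ⊢
      exact key
  obtain ⟨hc, hE, hd, hn⟩ := hfs _ _ _ (hP n le_rfl)
  refine ⟨⟨hc, hE, hd⟩, ?_⟩
  intro hBn
  obtain ⟨hb1, hb2, hb3⟩ := hBn
  have key := hn (S (n + 1)).2.1 (S (n + 1)).2.2 (B n)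
    (by rw [hSs, Finset.coe_union]) (by rw [hSs, Finset.coe_union]) hb1 hb2 hb3
  exact hinf _ _ _ key

/-- A finite set of legal edges can be enlarged to a legal move of given size. -/
lemma exists_move {E : Set (Sym2 V)} (hE : E.Infinite) (C A : Finset (Sym2 V)) (n : ℕ)
    (hC : (C : Set (Sym2 V)) ⊆ E) (hCA : Disjoint (C : Set (Sym2 V)) (A : Set (Sym2 V)))
    (hn : C.card ≤ n) :
    ∃ Y : Finset (Sym2 V), C ⊆ Y ∧ Y.card = n ∧ (Y : Set (Sym2 V)) ⊆ E ∧
      Disjoint (Y : Set (Sym2 V)) (A : Set (Sym2 V)) := by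
  classical
  have hinf : (E \ ((C ∪ A : Finset (Sym2 V)) : Set (Sym2 V))).Infinite :=
    hE.sdiff (Finset.finite_toSet _)
  obtain ⟨D, hD, hDc⟩ := hinf.exists_subset_card_eq (n - C.card)
  have hdisj : Disjoint C D := by
    rw [Finset.disjoint_left]
    intro e he he'
    have := hD he'
    simp [he] at this
  refine ⟨C ∪ D, Finset.subset_union_left, ?_, ?_, ?_⟩
  · rw [Finset.card_union_of_disjoint hdisj, hDc]; omega
  · rw [Finset.coe_union]
    exact Set.union_subset hC (fun e he => (hD he).1)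
  · rw [Finset.coe_union]
    refine Disjoint.union_left hCA ?_
    rw [Set.disjoint_left]
    intro e he he'
    have h1 := (hD he).2
    apply h1
    simp only [Finset.coe_union, Set.mem_union]
    exact Or.inr he'

/-- Breaker wins at once if after every first move of Maker there is a small unclaimed cut. -/
theorem breakerWins_of_cut (G : SimpleGraph V) (hE : G.edgeSet.Infinite) (v₀ : V) (p q : ℕ)
    (h : ∀ X : Finset (Sym2 V), X.card = p → (X : Set (Sym2 V)) ⊆ G.edgeSet →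
      ∃ (W : Finset V) (C : Finset (Sym2 V)), v₀ ∈ W ∧ C.card ≤ q ∧
        (C : Set (Sym2 V)) ⊆ G.edgeSet ∧ Disjoint (C : Set (Sym2 V)) (X : Set (Sym2 V)) ∧
        ∀ a ∈ W, ∀ b, b ∉ W → G.Adj a b → s(a, b) ∈ C) :
    BreakerWins G v₀ p q := by
  classical
  have key : ∀ X : Finset (Sym2 V), X.card = p → (X : Set (Sym2 V)) ⊆ G.edgeSet →
      ∃ Y : Finset (Sym2 V), Y.card = q ∧ (Y : Set (Sym2 V)) ⊆ G.edgeSet ∧
        Disjoint (Y : Set (Sym2 V)) (X : Set (Sym2 V)) ∧
        {w : V | (G.deleteEdges (Y : Set (Sym2 V))).Reachable v₀ w}.Finite := by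
    intro X hX hXE
    obtain ⟨W, C, hv, hCq, hCE, hCX, hcut⟩ := h X hX hXE
    obtain ⟨Y, hCY, hYq, hYE, hYX⟩ := exists_move hE C X q hCE hCX hCq
    refine ⟨Y, hYq, hYE, hYX, ?_⟩
    refine (Finset.finite_toSet W).subset ?_
    rintro w ⟨wk⟩
    have : ∀ (a b : V) (wk : (G.deleteEdges (Y : Set (Sym2 V))).Walk a b), a ∈ W → b ∈ W := by
      intro a b wk
      induction wk with
      | nil => exact id
      | cons hadj _ ih =>
        intro ha
        apply ih
        by_contra hb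
        rw [SimpleGraph.deleteEdges_adj] at hadj
        exact hadj.2 (by exact_mod_cast hCY (hcut _ ha _ hb hadj.1))
    exact_mod_cast this _ _ wk hv
  obtain ⟨resp, hresp⟩ : ∃ resp : Finset (Sym2 V) → Finset (Sym2 V), ∀ X : Finset (Sym2 V),
      X.card = p → (X : Set (Sym2 V)) ⊆ G.edgeSet → (resp X).card = q ∧
        (resp X : Set (Sym2 V)) ⊆ G.edgeSet ∧
        Disjoint (resp X : Set (Sym2 V)) (X : Set (Sym2 V)) ∧
        {w : V | (G.deleteEdges (resp X : Set (Sym2 V))).Reachable v₀ w}.Finite := by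
    refine ⟨fun X => if h : X.card = p ∧ (X : Set (Sym2 V)) ⊆ G.edgeSet then
      (key X h.1 h.2).choose else ∅, ?_⟩
    intro X h1 h2
    have h : X.card = p ∧ (X : Set (Sym2 V)) ⊆ G.edgeSet := ⟨h1, h2⟩
    simp only [h, true_and, dif_pos]
    exact (key X h.1 h.2).choose_spec
  refine ⟨fun L => resp (L.headD ∅), ?_⟩
  intro M
  refine ⟨0, ?_⟩
  intro hM
  obtain ⟨hM1, hM2, -⟩ := hM 0 le_rfl
  obtain ⟨hY1, hY2, hY3, hY4⟩ := hresp (M 0) hM1 hM2
  have hL : (List.ofFn (fun j : Fin (0 + 1) => M j.val)).headD ∅ = M 0 := by simp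
  have hz : ∀ i : ℕ, i ≤ 0 ↔ i = 0 := by intro i; omega
  constructor
  · intro k hk
    obtain rfl : k = 0 := by omega
    simp only [hL, hz, Set.iUnion_iUnion_eq_left]
    refine ⟨hY1, hY2, ?_⟩
    simpa using hY3
  · simp only [hz, Set.iUnion_iUnion_eq_left, hL]
    exact hY4

end Pool.Agent.Helper30.Perc
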