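import Pool.Agent.Helper30.Perc.Cap

/-! Growth of the set reachable by Maker with few new edges. -/

namespace Pool.Agent.Helper30.Perc

open Finset

variable {V : Type} [DecidableEq V] (G : SimpleGraph V) [G.LocallyFinite]

omit [DecidableEq V] in
lemma fes_adj (M : Finset (Sym2 V)) (a b : V) :
    (SimpleGraph.fromEdgeSet (M : Set (Sym2 V))).Adj a b ↔ s(a, b) ∈ M ∧ a ≠ b := by
  rw [SimpleGraph.fromEdgeSet_adj]; simp

lemma exists_clos (M : Finset (Sym2 V)) (A : Finset V) : ∃ A' : Finset V, A ⊆ A' ∧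
    (∀ a b, s(a, b) ∈ M → a ∈ A' → b ∈ A') ∧
    ∀ x ∈ A', ∃ a ∈ A, (SimpleGraph.fromEdgeSet (M : Set (Sym2 V))).Reachable a x := by
  classical
  refine ⟨(A ∪ vert M).filter fun x =>
    ∃ a ∈ A, (SimpleGraph.fromEdgeSet (M : Set (Sym2 V))).Reachable a x, ?_, ?_, ?_⟩
  · intro a ha
    rw [mem_filter, mem_union]
    exact ⟨Or.inl ha, a, ha, SimpleGraph.Reachable.refl a⟩
  · intro a b hab ha
    rw [mem_filter] at ha ⊢
    obtain ⟨-, c, hc, hca⟩ := ha
    refine ⟨mem_union_right _ ?_, c, hc, ?_⟩
    · rw [mem_vert]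
      exact ⟨_, hab, by simp⟩
    · by_cases h : a = b
      · exact h ▸ hca
      · exact hca.trans (SimpleGraph.Adj.reachable ((fes_adj M a b).2 ⟨hab, h⟩))
  · intro x hx
    exact (mem_filter.1 hx).2

/-- `N` is a set of vertices reachable with at most `j` new edges -/
structure Lev (o : V) (M B : Finset (Sym2 V)) (j : ℕ) (N : Finset V) : Prop where
  ho : o ∈ N
  cl : ∀ a b, s(a, b) ∈ M → a ∈ N → b ∈ N
  re : ∀ x ∈ N, ∃ P : Finset (Sym2 V), P.card ≤ j ∧ (P : Set (Sym2 V)) ⊆ G.edgeSet ∧
    Disjoint P B ∧ (SimpleGraph.fromEdgeSet ((M ∪ P : Finset (Sym2 V)) : Set (Sym2 V))).Reachable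
      o x

lemma Lev.adm {o : V} {M B : Finset (Sym2 V)} {j : ℕ} {N : Finset V} (h : Lev G o M B j N) :
    Adm o M N := ⟨h.ho, h.cl⟩

lemma lev_zero (o : V) (M B : Finset (Sym2 V)) : ∃ N, Lev G o M B 0 N := by
  obtain ⟨N, h1, h2, h3⟩ := exists_clos M {o}
  refine ⟨N, h1 (mem_singleton_self o), h2, ?_⟩
  intro x hx
  refine ⟨∅, by simp, by simp, by simp, ?_⟩
  obtain ⟨a, ha, hax⟩ := h3 x hx
  rw [mem_singleton] at ha
  subst ha
  simpa using hax

lemma reach_mono {M M' : Finset (Sym2 V)} (h : M ⊆ M') {a b : V}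
    (hab : (SimpleGraph.fromEdgeSet (M : Set (Sym2 V))).Reachable a b) :
    (SimpleGraph.fromEdgeSet (M' : Set (Sym2 V))).Reachable a b :=
  hab.mono (SimpleGraph.fromEdgeSet_mono (by exact_mod_cast h))

lemma lev_succ (d : ℕ) (hd : ∀ v, (G.neighborFinset v).card ≤ d) {o : V}
    {M B : Finset (Sym2 V)} {j : ℕ} {N : Finset V} (h : Lev G o M B j N) :
    ∃ N', Lev G o M B (j + 1) N' ∧ cut G N + d * N.card ≤ B.card + d * N'.card := by
  obtain ⟨N', h1, h2, h3⟩ := exists_clos M (N ∪ N.biUnion fun a =>
    (G.neighborFinset a).filter fun b => s(a, b) ∉ B)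
  have hNN : N ⊆ N' := subset_union_left.trans h1
  refine ⟨N', ⟨hNN h.ho, h2, ?_⟩, ?_⟩
  · intro x hx
    obtain ⟨a, ha, hax⟩ := h3 x hx
    rw [mem_union, mem_biUnion] at ha
    rcases ha with ha | ⟨c, hc, ha⟩
    · obtain ⟨P, hP1, hP2, hP3, hP4⟩ := h.re a ha
      exact ⟨P, by omega, hP2, hP3, hP4.trans (reach_mono subset_union_left hax)⟩
    · rw [mem_filter, SimpleGraph.mem_neighborFinset] at ha
      obtain ⟨P, hP1, hP2, hP3, hP4⟩ := h.re c hc
      refine ⟨insert s(c, a) P, ?_, ?_, ?_, ?_⟩
      · exact (card_insert_le _ _).trans (by omega)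
      · rw [coe_insert]
        exact Set.insert_subset (by simpa using ha.1) hP2
      · rw [disjoint_insert_left]
        exact ⟨ha.2, hP3⟩
      · refine (reach_mono ?_ hP4).trans ?_
        · exact union_subset_union (Subset.refl _) (subset_insert _ _)
        · have h5 : (SimpleGraph.fromEdgeSet
              ((M ∪ insert s(c, a) P : Finset (Sym2 V)) : Set (Sym2 V))).Reachable c a :=
            SimpleGraph.Adj.reachable ((fes_adj _ _ _).2 ⟨by simp, ha.1.ne⟩)
          exact h5.trans (reach_mono subset_union_left hax)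
  · have h4 : (bdE G N \ B).card ≤ (N' \ N).card * d := by
      calc (bdE G N \ B).card ≤ ((N' \ N).biUnion fun b =>
            (G.neighborFinset b).image fun a => s(a, b)).card := by
            refine card_le_card ?_
            intro e he
            rw [mem_sdiff, mem_bdE] at he
            obtain ⟨⟨a, ha, b, hb, hab, rfl⟩, heB⟩ := he
            rw [mem_biUnion]
            refine ⟨b, ?_, ?_⟩
            · rw [mem_sdiff]
              refine ⟨h1 ?_, hb⟩
              rw [mem_union, mem_biUnion]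
              refine Or.inr ⟨a, ha, ?_⟩
              rw [mem_filter]
              exact ⟨by simpa using hab, heB⟩
            · rw [mem_image]
              exact ⟨a, by simpa using hab.symm, rfl⟩
        _ ≤ ∑ b ∈ N' \ N, ((G.neighborFinset b).image fun a => s(a, b)).card := card_biUnion_le
        _ ≤ ∑ _b ∈ N' \ N, d := sum_le_sum fun b _ => card_image_le.trans (hd b)
        _ = _ := by rw [sum_const, smul_eq_mul]
    have h5 : (bdE G N).card ≤ (bdE G N \ B).card + B.card := by
      rw [← card_sdiff_add_card_inter (bdE G N) B]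
      exact Nat.add_le_add_left (card_le_card inter_subset_right) _
    rw [card_bdE] at h5
    have h6 : (N' \ N).card + N.card = N'.card := by
      rw [card_sdiff_add_card_eq_card hNN]
    have h7 : d * N'.card = (N' \ N).card * d + d * N.card := by rw [← h6]; ring
    omega

/-- Growth: with `J` new edges Maker reaches `K` times as many vertices as there are claimed edges. -/
theorem growth (d : ℕ) (hd0 : 0 < d) (hd : ∀ v, (G.neighborFinset v).card ≤ d) (o : V)
    (h c1 A : ℝ) (hh : 0 < h) (hc1 : 0 < c1) (hA : 0 < A) (K : ℝ) (J1 J2 : ℕ)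
    (hiso : ∀ W : Finset V, h * W.card ≤ cut G W)
    (hJ1 : d * 1 ≤ c1 * J1) (hJ1' : d * (2 * A / h) ≤ c1 * J1)
    (hJ2 : K ≤ (1 + h / (2 * d)) ^ J2)
    (M B : Finset (Sym2 V)) (hBM : (B.card : ℝ) ≤ A * M.card)
    (hcap : ∀ N : Finset V, Adm o M N → (B.card : ℝ) + c1 * M.card ≤ cut G N) :
    ∃ N, Lev G o M B (J1 + J2) N ∧ K * (M.card + 1) ≤ N.card := by
  have hdR : (0 : ℝ) < d := by exact_mod_cast hd0
  have step1 : ∀ j : ℕ, ∃ N, Lev G o M B j N ∧ 1 + j * (c1 * M.card / d) ≤ (N.card : ℝ) := by
    intro j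
    induction j with
    | zero =>
      obtain ⟨N, hN⟩ := lev_zero G o M B
      refine ⟨N, hN, ?_⟩
      have : 1 ≤ N.card := card_pos.2 ⟨o, hN.ho⟩
      have : (1 : ℝ) ≤ N.card := by exact_mod_cast this
      simpa using this
    | succ j ih =>
      obtain ⟨N, hN, hNc⟩ := ih
      obtain ⟨N', hN', hc⟩ := lev_succ G d hd hN
      refine ⟨N', hN', ?_⟩
      have h1 := hcap N hN.adm
      have h2 : (cut G N : ℝ) + d * N.card ≤ B.card + d * N'.card := by exact_mod_cast hc
      have h3 : d * (N.card : ℝ) + c1 * M.card ≤ d * N'.card := by linarith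
      have h4 : (N.card : ℝ) + c1 * M.card / d ≤ N'.card := by
        have : (N.card : ℝ) + c1 * M.card / d = (d * (N.card : ℝ) + c1 * M.card) / d := by
          field_simp
        rw [this, div_le_iff₀ hdR]
        linarith
      push_cast
      linarith
  have hMc : (0 : ℝ) ≤ M.card := by positivity
  have hJ1a : 1 ≤ J1 * (c1 / d) := by
    rw [mul_div_assoc', le_div_iff₀ hdR]
    linarith
  have hJ1b : 2 * A / h ≤ J1 * (c1 / d) := by
    rw [mul_div_assoc', le_div_iff₀ hdR]
    linarith
  have step2 : ∀ j : ℕ, ∃ N, Lev G o M B (J1 + j) N ∧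
      (1 + h / (2 * d)) ^ j * (M.card + 1) ≤ (N.card : ℝ) ∧ 2 * A / h * M.card ≤ N.card := by
    intro j
    induction j with
    | zero =>
      obtain ⟨N, hN, hNc⟩ := step1 J1
      refine ⟨N, hN, ?_, ?_⟩
      · have : (M.card : ℝ) * 1 ≤ M.card * (J1 * (c1 / d)) :=
          mul_le_mul_of_nonneg_left hJ1a hMc
        have e : (J1 : ℝ) * (c1 * M.card / d) = M.card * (J1 * (c1 / d)) := by ring
        rw [e] at hNc
        simp only [pow_zero, one_mul]
        linarith
      · have : (M.card : ℝ) * (2 * A / h) ≤ M.card * (J1 * (c1 / d)) :=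
          mul_le_mul_of_nonneg_left hJ1b hMc
        have e : (J1 : ℝ) * (c1 * M.card / d) = M.card * (J1 * (c1 / d)) := by ring
        rw [e] at hNc
        linarith
    | succ j ih =>
      obtain ⟨N, hN, hNc, hNc'⟩ := ih
      obtain ⟨N', hN', hc⟩ := lev_succ G d hd hN
      have h1 := hiso N
      have h2 : (cut G N : ℝ) + d * N.card ≤ B.card + d * N'.card := by exact_mod_cast hc
      have h3 : (B.card : ℝ) ≤ h / 2 * N.card := by
        have : h / 2 * (2 * A / h * M.card) ≤ h / 2 * N.card :=
          mul_le_mul_of_nonneg_left hNc' (by positivity)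
        have e : h / 2 * (2 * A / h * M.card) = A * M.card := by field_simp
        linarith
      have h4 : (d : ℝ) * N.card + h / 2 * N.card ≤ d * N'.card := by linarith
      have h5 : (1 + h / (2 * d)) * N.card ≤ N'.card := by
        have : (1 + h / (2 * d)) * N.card = (d * (N.card : ℝ) + h / 2 * N.card) / d := by
          field_simp
        rw [this, div_le_iff₀ hdR]
        linarith
      have h6 : (N.card : ℝ) ≤ N'.card := by
        have : (0 : ℝ) ≤ h / (2 * d) * N.card := by positivity
        linarith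
      refine ⟨N', hN', ?_, by linarith⟩
      calc (1 + h / (2 * d)) ^ (j + 1) * ((M.card : ℝ) + 1)
          = (1 + h / (2 * d)) * ((1 + h / (2 * d)) ^ j * (M.card + 1)) := by ring
        _ ≤ (1 + h / (2 * d)) * N.card := mul_le_mul_of_nonneg_left hNc (by positivity)
        _ ≤ _ := h5
  obtain ⟨N, hN, hNc, -⟩ := step2 J2
  refine ⟨N, hN, ?_⟩
  refine le_trans ?_ hNc
  exact mul_le_mul_of_nonneg_right hJ2 (by positivity)

/-- balls are finite, with an explicit bound -/
lemma ball_bound (hconn : G.Connected) (d : ℕ) (hd : ∀ v, (G.neighborFinset v).card ≤ d)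
    (z : V) (k : ℕ) : ∃ b : Finset V, (∀ v, G.dist z v ≤ k → v ∈ b) ∧ b.card ≤ (d + 1) ^ k := by
  induction k with
  | zero =>
    refine ⟨{z}, ?_, by simp⟩
    intro v hv
    have : z = v := by
      rw [← hconn.dist_eq_zero_iff]; omega
    simp [this]
  | succ k ih =>
    obtain ⟨b, hb1, hb2⟩ := ih
    refine ⟨b ∪ b.biUnion fun a => G.neighborFinset a, ?_, ?_⟩
    · intro v hv
      by_cases hk : G.dist z v ≤ k
      · exact mem_union_left _ (hb1 v hk)
      · have hk' : G.dist z v = k + 1 := by omega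
        have hne : v ≠ z := by
          rintro rfl
          simp at hk'
        obtain ⟨w, hw⟩ := hconn.exists_walk_length_eq_dist v z
        cases w with
        | nil => exact absurd rfl hne
        | @cons _ u _ hadj w' =>
          rw [SimpleGraph.Walk.length_cons, SimpleGraph.dist_comm, hk'] at hw
          have h1 : G.dist z u ≤ k := by
            rw [SimpleGraph.dist_comm]
            have := SimpleGraph.dist_le w'
            omega
          refine mem_union_right _ ?_
          rw [mem_biUnion]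
          exact ⟨u, hb1 u h1, by simpa using hadj.symm⟩
    · refine (card_union_le _ _).trans ?_
      have h1 : (b.biUnion fun a => G.neighborFinset a).card ≤ b.card * d := by
        refine card_biUnion_le.trans ?_
        calc ∑ a ∈ b, (G.neighborFinset a).card ≤ ∑ _a ∈ b, d := sum_le_sum fun a _ => hd a
          _ = _ := by rw [sum_const, smul_eq_mul]
      calc b.card + (b.biUnion fun a => G.neighborFinset a).card ≤ b.card + b.card * d := by omega
        _ = b.card * (d + 1) := by ring
        _ ≤ (d + 1) ^ k * (d + 1) := Nat.mul_le_mul_right _ hb2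
        _ = _ := by ring

end Pool.Agent.Helper30.Perc
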