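import Pool.Agent.Helper30.Perc.Const

/-! The critical bias exists for nonamenable graphs with the placement property. -/

namespace Pool.Agent.Helper30.Perc

open Finset Filter

/-- the edges of `G` with exactly one endpoint in `W` -/
def bdry {V : Type} (G : SimpleGraph V) (W : Set V) : Set (Sym2 V) :=
  {e | ∃ a b, a ∈ W ∧ b ∉ W ∧ G.Adj a b ∧ e = s(a, b)}

/-- the least number of boundary edges of a finite vertex set that contains `v₀` and none of
whose boundary edges belongs to `M` -/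
noncomputable def cutCap {V : Type} (G : SimpleGraph V) (v₀ : V) (M : Finset (Sym2 V)) : ℕ :=
  sInf {n | ∃ W : Finset V, v₀ ∈ W ∧ Disjoint (bdry G (W : Set V)) (M : Set (Sym2 V)) ∧
    (bdry G (W : Set V)).ncard = n}

/-- the largest value of `cutCap G v₀ M` over the sets `M` of `p` edges of `G` -/
noncomputable def maxCap {V : Type} (G : SimpleGraph V) (v₀ : V) (p : ℕ) : ℕ :=
  sSup {n | ∃ M : Finset (Sym2 V), (M : Set (Sym2 V)) ⊆ G.edgeSet ∧ M.card = p ∧
    cutCap G v₀ M = n}

variable {V : Type} [DecidableEq V] (G : SimpleGraph V) [G.LocallyFinite]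

lemma bdry_eq (W : Finset V) : bdry G (W : Set V) = (bdE G W : Set (Sym2 V)) := by
  ext e
  rw [mem_coe, mem_bdE]
  constructor
  · rintro ⟨a, b, ha, hb, hab, rfl⟩
    exact ⟨a, by simpa using ha, b, by simpa using hb, hab, rfl⟩
  · rintro ⟨a, ha, b, hb, hab, rfl⟩
    exact ⟨a, b, by simpa using ha, by simpa using hb, hab, rfl⟩

lemma bdry_ncard (W : Finset V) : (bdry G (W : Set V)).ncard = cut G W := by
  rw [bdry_eq, Set.ncard_coe_finset, card_bdE]

omit [DecidableEq V] [G.LocallyFinite] in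
lemma adm_iff (v : V) (M : Finset (Sym2 V)) (hM : (M : Set (Sym2 V)) ⊆ G.edgeSet)
    (W : Finset V) : Adm v M W ↔
      v ∈ W ∧ Disjoint (bdry G (W : Set V)) (M : Set (Sym2 V)) := by
  constructor
  · rintro ⟨h1, h2⟩
    refine ⟨h1, ?_⟩
    rw [Set.disjoint_left]
    rintro e ⟨a, b, ha, hb, hab, rfl⟩ he
    exact hb (by exact_mod_cast h2 a b (by exact_mod_cast he) (by exact_mod_cast ha))
  · rintro ⟨h1, h2⟩
    refine ⟨h1, ?_⟩
    intro a b hab ha
    by_contra hb
    rw [Set.disjoint_left] at h2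
    have hadj : G.Adj a b := by simpa using hM (mem_coe.2 hab)
    exact h2 ⟨a, b, by exact_mod_cast ha, by exact_mod_cast hb, hadj, rfl⟩ (mem_coe.2 hab)

lemma exists_adm_small (d : ℕ) (hd : ∀ v, (G.neighborFinset v).card ≤ d) (v : V)
    (M : Finset (Sym2 V)) : ∃ W : Finset V, Adm v M W ∧ cut G W ≤ (2 * M.card + 1) * d := by
  refine ⟨insert v (vert M), ⟨mem_insert_self _ _, ?_⟩, ?_⟩
  · intro a b hab _
    rw [mem_insert, mem_vert]
    exact Or.inr ⟨_, hab, by simp⟩
  · unfold cut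
    calc ∑ a ∈ insert v (vert M), (G.neighborFinset a \ insert v (vert M)).card
        ≤ ∑ _a ∈ insert v (vert M), d :=
          sum_le_sum fun a _ => (card_le_card sdiff_subset).trans (hd a)
      _ = (insert v (vert M)).card * d := by rw [sum_const, smul_eq_mul]
      _ ≤ _ := by
          refine Nat.mul_le_mul_right _ ((card_insert_le _ _).trans ?_)
          have := card_vert M
          omega

lemma cutCap_le (v : V) (M : Finset (Sym2 V)) (hM : (M : Set (Sym2 V)) ⊆ G.edgeSet)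
    (W : Finset V) (hW : Adm v M W) : cutCap G v M ≤ cut G W := by
  refine Nat.sInf_le ⟨W, ?_⟩
  rw [adm_iff G v M hM] at hW
  exact ⟨hW.1, hW.2, bdry_ncard G W⟩

lemma exists_cutCap (d : ℕ) (hd : ∀ v, (G.neighborFinset v).card ≤ d) (v : V)
    (M : Finset (Sym2 V)) (hM : (M : Set (Sym2 V)) ⊆ G.edgeSet) :
    ∃ W : Finset V, Adm v M W ∧ cut G W = cutCap G v M := by
  have hne : {n | ∃ W : Finset V, v ∈ W ∧ Disjoint (bdry G (W : Set V)) (M : Set (Sym2 V)) ∧
    (bdry G (W : Set V)).ncard = n}.Nonempty := by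
    obtain ⟨W, hW, -⟩ := exists_adm_small G d hd v M
    rw [adm_iff G v M hM] at hW
    exact ⟨_, W, hW.1, hW.2, rfl⟩
  obtain ⟨W, h1, h2, h3⟩ := Nat.sInf_mem hne
  refine ⟨W, (adm_iff G v M hM W).2 ⟨h1, h2⟩, ?_⟩
  rw [← bdry_ncard]
  exact h3

lemma capGE_iff (d : ℕ) (hd : ∀ v, (G.neighborFinset v).card ≤ d)
    (hE : G.edgeSet.Infinite) (v : V) (p : ℕ) (c : ℝ) :
    CapGE G v p c ↔ c ≤ maxCap G v p := by
  have hbdd : BddAbove {n | ∃ M : Finset (Sym2 V), (M : Set (Sym2 V)) ⊆ G.edgeSet ∧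
      M.card = p ∧ cutCap G v M = n} := by
    refine ⟨(2 * p + 1) * d, ?_⟩
    rintro n ⟨M, h1, h2, rfl⟩
    obtain ⟨W, hW, hW'⟩ := exists_adm_small G d hd v M
    rw [h2] at hW'
    exact (cutCap_le G v M h1 W hW).trans hW'
  have hne : {n | ∃ M : Finset (Sym2 V), (M : Set (Sym2 V)) ⊆ G.edgeSet ∧
      M.card = p ∧ cutCap G v M = n}.Nonempty := by
    obtain ⟨M, hM, hMc⟩ := hE.exists_subset_card_eq p
    exact ⟨_, M, hM, hMc, rfl⟩
  constructor
  · rintro ⟨M, h1, h2, h3⟩
    obtain ⟨W, hW, hW'⟩ := exists_cutCap G d hd v M h1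
    have h4 : c ≤ cutCap G v M := by
      rw [← hW']; exact h3 W hW
    refine h4.trans ?_
    have : cutCap G v M ≤ maxCap G v p := le_csSup hbdd ⟨M, h1, h2, rfl⟩
    exact_mod_cast this
  · intro hc
    obtain ⟨M, h1, h2, h3⟩ := Nat.sSup_mem hne hbdd
    refine ⟨M, h1, h2, ?_⟩
    intro W hW
    refine hc.trans ?_
    have h4 := cutCap_le G v M h1 W hW
    have h5 : maxCap G v p ≤ cut G W := by
      rw [h3] at h4
      exact h4
    exact_mod_cast h5

lemma CapGE.mono {v : V} {n : ℕ} {c c' : ℝ} (h : CapGE G v n c) (hc : c' ≤ c) :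
    CapGE G v n c' := by
  obtain ⟨M, h1, h2, h3⟩ := h
  exact ⟨M, h1, h2, fun W hW => hc.trans (h3 W hW)⟩

lemma capGE_h (h : ℝ) (hh : 0 < h) (hiso : ∀ W : Finset V, h * W.card ≤ cut G W) (v : V)
    (n : ℕ) : CapGE G v n (h * n) := by
  have key : ∀ n : ℕ, ∃ (M : Finset (Sym2 V)) (U : Finset V), (M : Set (Sym2 V)) ⊆ G.edgeSet ∧
      M.card = n ∧ U.card = n + 1 ∧ v ∈ U ∧ (∀ e ∈ M, ∀ x ∈ e, x ∈ U) ∧
      ∀ W : Finset V, Adm v M W → U ⊆ W := by
    intro n
    induction n with
    | zero =>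
      refine ⟨∅, {v}, by simp, by simp, by simp, by simp, by simp, ?_⟩
      intro W hW
      simpa using hW.1
    | succ n ih =>
      obtain ⟨M, U, h1, h2, h3, h4, h5, h6⟩ := ih
      have h7 := hiso U
      have h8 : (0 : ℝ) < cut G U := by
        refine lt_of_lt_of_le ?_ h7
        rw [h3]; positivity
      have h9 : 0 < (bdE G U).card := by
        rw [card_bdE]; exact_mod_cast h8
      obtain ⟨e, he⟩ := card_pos.1 h9
      rw [mem_bdE] at he
      obtain ⟨a, ha, b, hb, hab, rfl⟩ := he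
      have hnot : s(a, b) ∉ M := fun hm => hb (h5 _ hm b (by simp))
      refine ⟨insert s(a, b) M, insert b U, ?_, ?_, ?_, ?_, ?_, ?_⟩
      · rw [coe_insert]
        exact Set.insert_subset (by simpa using hab) h1
      · rw [card_insert_of_notMem hnot, h2]
      · rw [card_insert_of_notMem hb, h3]
      · exact mem_insert_of_mem h4
      · intro e he x hx
        rw [mem_insert] at he
        rcases he with rfl | he
        · rw [Sym2.mem_iff] at hx
          rcases hx with rfl | rfl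
          · exact mem_insert_of_mem ha
          · exact mem_insert_self _ _
        · exact mem_insert_of_mem (h5 e he x hx)
      · intro W hW
        have hU : U ⊆ W := h6 W ⟨hW.1, fun a b hab => hW.2 a b (mem_insert_of_mem hab)⟩
        refine insert_subset ?_ hU
        exact hW.2 a b (mem_insert_self _ _) (hU ha)
  obtain ⟨M, U, h1, h2, h3, -, -, h6⟩ := key n
  refine ⟨M, h1, h2, ?_⟩
  intro W hW
  have h7 : n ≤ W.card := by
    have := card_le_card (h6 W hW)
    omega
  have h8 : (n : ℝ) ≤ W.card := by exact_mod_cast h7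
  exact (mul_le_mul_of_nonneg_left h8 hh.le).trans (hiso W)

theorem main_placeable [Infinite V] (hconn : G.Connected) (d : ℕ)
    (hd : ∀ v, (G.neighborFinset v).card ≤ d) (h : ℝ) (hh : 0 < h)
    (hiso : ∀ W : Finset V, h * W.card ≤ cut G W) (hpl : ∀ o, Placeable G o)
    (htrans : ∀ u v : V, ∃ φ : G ≃g G, φ u = v) :
    ∃ b : ℝ, h ≤ b ∧ (∀ v : V, Tendsto (fun p : ℕ => (maxCap G v p : ℝ) / p) atTop (nhds b)) ∧
      ∀ ε : ℝ, 0 < ε → ∃ p₀ : ℕ, ∀ p q : ℕ, p₀ ≤ p → ∀ v₀ : V,
        ((b + ε) * (p : ℝ) < (q : ℝ) → BreakerWins G v₀ p q) ∧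
        ((q : ℝ) < (b - ε) * (p : ℝ) → MakerWins G v₀ p q) := by
  obtain ⟨o⟩ : Nonempty V := inferInstance
  have hE : G.edgeSet.Infinite := by
    intro hfin
    obtain ⟨W, hW⟩ := Infinite.exists_subset_card_eq V (⌊(hfin.toFinset.card : ℝ) / h⌋₊ + 1)
    have h1 := hiso W
    have h2 : cut G W ≤ hfin.toFinset.card := by
      rw [← card_bdE]
      refine card_le_card ?_
      intro e he
      rw [mem_bdE] at he
      obtain ⟨a, -, b, -, hab, rfl⟩ := he
      simpa using hab
    have h3 : (cut G W : ℝ) ≤ hfin.toFinset.card := by exact_mod_cast h2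
    have h4 : (hfin.toFinset.card : ℝ) / h < W.card := by
      rw [hW]
      push_cast
      exact Nat.lt_floor_add_one _
    rw [div_lt_iff₀ hh] at h4
    linarith
  have hd0 : 0 < d := by
    have h1 := hiso {o}
    have h2 : cut G {o} ≤ d := by
      unfold cut
      rw [sum_singleton]
      exact (card_le_card sdiff_subset).trans (hd o)
    have h3 : (cut G {o} : ℝ) ≤ d := by exact_mod_cast h2
    have h4 : (0 : ℝ) < d := by
      rw [card_singleton] at h1
      push_cast at h1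
      linarith
    exact_mod_cast h4
  set S : Set ℝ := {c | ∃ᶠ n in atTop, CapGE G o n (c * n)} with hS
  have hhS : h ∈ S := by
    rw [hS, Set.mem_setOf_eq]
    exact (Eventually.of_forall fun n => capGE_h G h hh hiso o n).frequently
  have hbdd : BddAbove S := by
    refine ⟨3 * d, ?_⟩
    intro c hc
    obtain ⟨n, ⟨M, h1, h2, h3⟩, hn⟩ := (hc.and_eventually (eventually_ge_atTop 1)).exists
    obtain ⟨W, hW, hW'⟩ := exists_adm_small G d hd o M
    have h4 := h3 W hW
    rw [h2] at hW'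
    have h5 : (cut G W : ℝ) ≤ (2 * n + 1) * d := by exact_mod_cast hW'
    have h6 : (1 : ℝ) ≤ n := by exact_mod_cast hn
    have h7 : (0 : ℝ) < n := by linarith
    have h8 : c * n ≤ 3 * d * n := by nlinarith [(Nat.cast_nonneg d : (0 : ℝ) ≤ d)]
    exact le_of_mul_le_mul_right h8 h7
  set b : ℝ := sSup S with hb
  have hhb : h ≤ b := le_csSup hbdd hhS
  have hlow : ∀ ε : ℝ, 0 < ε → ∃ᶠ n in atTop, CapGE G o n ((b - ε / 4) * n) := by
    intro ε hε
    obtain ⟨c, hc, hc'⟩ := exists_lt_of_lt_csSup ⟨h, hhS⟩ (show b - ε / 4 < sSup S by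
      rw [← hb]; linarith)
    refine Frequently.mono hc fun n hn => hn.mono G ?_
    exact mul_le_mul_of_nonneg_right hc'.le (by positivity)
  have hup : ∀ ε : ℝ, 0 < ε → ∀ᶠ n : ℕ in atTop, ¬ CapGE G o n ((b + ε) * n) := by
    intro ε hε
    have h1 : b + ε ∉ S := by
      intro h2
      have := le_csSup hbdd h2
      linarith
    rw [hS, Set.mem_setOf_eq, not_frequently] at h1
    exact h1
  have htr : ∀ v w : V, ∀ n c, CapGE G v n c → CapGE G w n c := by
    intro v w n c hc
    obtain ⟨φ, hφ⟩ := htrans v w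
    rw [← hφ]
    exact hc.translate G φ
  have hlow' : ∀ ε : ℝ, 0 < ε → ε < b → ∃ p0 : ℕ, ∀ p : ℕ, p0 ≤ p → ∀ v,
      CapGE G v p ((b - ε) * p) := by
    intro ε hε hεb
    obtain ⟨p0, hp0⟩ := exists_data G hconn d hd0 hd h hh hiso hpl htrans o b ε hε hεb (hlow ε hε)
    refine ⟨max p0 1, ?_⟩
    intro p hp v
    have hp1 : (0 : ℝ) < p := by
      have : 1 ≤ p := (le_max_right _ _).trans hp
      exact_mod_cast this
    obtain ⟨R, C0, J1, J2, r, c1, A, K, M0, D, hD⟩ := hp0 p ((le_max_left _ _).trans hp) 0 (by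
      push_cast
      exact mul_pos (by linarith) hp1) v
    obtain ⟨X, hX1, hX2, -, hX4⟩ := D.turn (k := 0) (M := ∅) (B := ∅) (by
      rw [Nat.zero_mul]; exact good_zero) (by simp) (by simp)
    refine ⟨X, hX2, hX1, ?_⟩
    intro W hW
    refine hD.trans ?_
    have h1 := D.cap hX4 W (by rw [empty_union]; exact hW)
    simpa using h1
  refine ⟨b, hhb, ?_, ?_⟩
  · intro v
    rw [Metric.tendsto_atTop]
    intro ε hε
    set ε' := min (ε / 2) (b / 2) with hε'
    have hb0 : 0 < b := hh.trans_le hhb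
    have hε'0 : 0 < ε' := lt_min (by linarith) (by linarith)
    have hε'b : ε' < b := (min_le_right _ _).trans_lt (by linarith)
    obtain ⟨p1, hp1⟩ := hlow' ε' hε'0 hε'b
    obtain ⟨p2, hp2⟩ := eventually_atTop.1 (hup ε' hε'0)
    refine ⟨max (max p1 p2) 1, ?_⟩
    intro p hp
    have hpp : (0 : ℝ) < p := by
      have : 1 ≤ p := (le_max_right _ _).trans hp
      exact_mod_cast this
    have h1 := hp1 p ((le_max_left _ _).trans ((le_max_left _ _).trans hp)) v
    have h2 := hp2 p ((le_max_right _ _).trans ((le_max_left _ _).trans hp))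
    have h3 : ¬ CapGE G v p ((b + ε') * p) := fun hc => h2 (htr v o _ _ hc)
    rw [capGE_iff G d hd hE] at h1 h3
    rw [not_le] at h3
    have hle : ε' ≤ ε / 2 := min_le_left _ _
    rw [Real.dist_eq, abs_lt]
    constructor
    · have : b - ε' ≤ (maxCap G v p : ℝ) / p := by
        rw [le_div_iff₀ hpp]; exact h1
      linarith
    · have : (maxCap G v p : ℝ) / p < b + ε' := by
        rw [div_lt_iff₀ hpp]; exact h3
      linarith
  · intro ε hε
    obtain ⟨p2, hp2⟩ := eventually_atTop.1 (hup ε hε)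
    obtain ⟨p1, hp1⟩ : ∃ p1 : ℕ, ε < b → ∀ p : ℕ, p1 ≤ p → ∀ q : ℕ, (q : ℝ) < (b - ε) * p →
        ∀ v0 : V, MakerWins G v0 p q := by
      by_cases hεb : ε < b
      · obtain ⟨p0, hp0⟩ := exists_data G hconn d hd0 hd h hh hiso hpl htrans o b ε hε hεb (hlow ε hε)
        refine ⟨p0, fun _ p hp q hq v0 => ?_⟩
        obtain ⟨R, C0, J1, J2, r, c1, A, K, M0, D, -⟩ := hp0 p hp q hq v0
        exact D.makerWins
      · exact ⟨0, fun h => absurd h hεb⟩
    refine ⟨max p1 p2, ?_⟩
    intro p q hp v0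
    constructor
    · intro hq
      refine breakerWins_of_cut G hE v0 p q ?_
      intro X hX hXE
      have h1 : ¬ CapGE G v0 p ((b + ε) * p) := fun hc =>
        hp2 p ((le_max_right _ _).trans hp) (htr v0 o _ _ hc)
      have h2 : ∃ W : Finset V, Adm v0 X W ∧ (cut G W : ℝ) < (b + ε) * p := by
        by_contra hcon
        push Not at hcon
        exact h1 ⟨X, hXE, hX, hcon⟩
      obtain ⟨W, hW, hWc⟩ := h2
      refine ⟨W, bdE G W, hW.1, ?_, ?_, ?_, ?_⟩
      · rw [card_bdE]
        have : (cut G W : ℝ) < q := hWc.trans hq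
        have : cut G W < q := by exact_mod_cast this
        exact this.le
      · intro e he
        rw [mem_coe, mem_bdE] at he
        obtain ⟨a, -, b, -, hab, rfl⟩ := he
        simpa using hab
      · rw [adm_iff G v0 X hXE, bdry_eq] at hW
        exact hW.2
      · intro a ha b' hb' hab
        rw [mem_bdE]
        exact ⟨a, ha, b', hb', hab, rfl⟩
    · intro hq
      have hεb : ε < b := by
        by_contra hcon
        have h1 : (b - ε) * p ≤ 0 := mul_nonpos_of_nonpos_of_nonneg (by linarith) (by positivity)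
        have h2 : (0 : ℝ) ≤ q := by positivity
        linarith
      exact hp1 hεb p ((le_max_left _ _).trans hp) q hq v0

end Pool.Agent.Helper30.Perc
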