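import Pool.Agent.Helper30.Perc.Unimod

/-! Percolation games: nonamenable graphs with a unimodular transitive group have a critical bias. -/

namespace Pool.Agent.Helper30.Perc.NonamenableUnimodular

open Pool.Agent.Helper30.Perc Filter

/-- Let `G` be an infinite connected locally finite graph with a unimodular vertex-transitive
group `Γ` of automorphisms and positive edge-isoperimetric constant `h`. Then the critical bias of
the percolation game exists and is the limit of `maxCap G v p / p`. -/
theorem result (V : Type) (G : SimpleGraph V) (hinf : Infinite V) (hconn : G.Connected)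
    (hlf : ∀ v : V, (G.neighborSet v).Finite) (Γ : Subgroup (G ≃g G))
    (htrans : ∀ u v : V, ∃ φ ∈ Γ, φ u = v)
    (huni : ∀ x y : V, (orb Γ x y).ncard = (orb Γ y x).ncard)
    (h : ℝ) (hh : 0 < h)
    (hiso : ∀ W : Finset V, h * (W.card : ℝ) ≤ ((bdry G (W : Set V)).ncard : ℝ)) :
    ∃ b : ℝ, h ≤ b ∧
      (∀ v : V, Tendsto (fun p : ℕ => (maxCap G v p : ℝ) / p) atTop (nhds b)) ∧
      ∀ ε : ℝ, 0 < ε → ∃ p₀ : ℕ, ∀ p q : ℕ, p₀ ≤ p → ∀ v₀ : V,
        ((b + ε) * (p : ℝ) < (q : ℝ) → BreakerWins G v₀ p q) ∧
        ((q : ℝ) < (b - ε) * (p : ℝ) → MakerWins G v₀ p q) := by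
  classical
  letI : G.LocallyFinite := fun v => (hlf v).fintype
  obtain ⟨o⟩ : Nonempty V := inferInstance
  have hd : ∀ v, (G.neighborFinset v).card ≤ (G.neighborFinset o).card := by
    intro v
    obtain ⟨φ, -, hφ⟩ := htrans v o
    subst hφ
    have h1 : (G.neighborFinset v).map φ.toEquiv.toEmbedding ⊆ G.neighborFinset (φ v) := by
      intro x hx
      rw [Finset.mem_map] at hx
      obtain ⟨y, hy, rfl⟩ := hx
      rw [SimpleGraph.mem_neighborFinset] at hy ⊢
      exact φ.map_adj_iff.2 hy
    have h2 := Finset.card_le_card h1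
    rwa [Finset.card_map] at h2
  refine main_placeable G hconn (G.neighborFinset o).card hd h hh ?_ ?_ ?_
  · intro W
    have := hiso W
    rwa [bdry_ncard] at this
  · intro v
    exact placeable_of_unimodular hconn _ hd Γ htrans huni v
  · intro u v
    obtain ⟨φ, -, hφ⟩ := htrans u v
    exact ⟨φ, hφ⟩

end Pool.Agent.Helper30.Perc.NonamenableUnimodular
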