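import Mathlib

/-! Multi-scale steering: an axis avoiding dense sets of obstacles, decided adaptively. -/

namespace Pool.Agent.Helper30.Perc.Steer

open Finset

/-- nodes of the axis, on a grid, for each level and each epoch -/
abbrev Plan (n N : ℕ) := ℕ → ℕ → Fin n → Fin N

section one

/-- at most three integers in a short interval -/
lemma card_le_three (N : ℕ) (u v w : ℝ) (hw : 0 < w) (hv : w ≤ v) :
    ((univ : Finset (Fin N)).filter fun t : Fin N => |u - v * ((t : ℕ) : ℝ)| ≤ w).card ≤ 3 := by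
  have hv0 : 0 < v := hw.trans_le hv
  have h1 : ((univ : Finset (Fin N)).filter fun t : Fin N => |u - v * ((t : ℕ) : ℝ)| ≤ w).card ≤
      (Finset.Icc (⌈(u - w) / v⌉) (⌈(u - w) / v⌉ + 2)).card := by
    refine card_le_card_of_injOn (fun t : Fin N => ((t : ℕ) : ℤ)) ?_ ?_
    · intro t ht
      rw [mem_coe, mem_filter, abs_le] at ht
      obtain ⟨-, h2, h3⟩ := ht
      rw [mem_coe, mem_Icc]
      constructor
      · rw [Int.ceil_le, div_le_iff₀ hv0]
        push_cast
        linarith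
      · have h4 : ((t : ℕ) : ℝ) ≤ (u - w) / v + 2 := by
          have e : (u - w) / v + 2 = (u - w + 2 * v) / v := by field_simp
          rw [e, le_div_iff₀ hv0]
          linarith
        have h5 : ((t : ℕ) : ℝ) < ⌈(u - w) / v⌉ + 3 := by
          have := Int.le_ceil ((u - w) / v)
          linarith
        have h6 : (((t : ℕ) : ℤ) : ℝ) < ((⌈(u - w) / v⌉ + 3 : ℤ) : ℝ) := by
          push_cast; exact h5
        have h7 : ((t : ℕ) : ℤ) < ⌈(u - w) / v⌉ + 3 := by exact_mod_cast h6
        show ((t : ℕ) : ℤ) ≤ _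
        omega
    · intro t _ t' _ h
      apply Fin.ext
      have : ((t : ℕ) : ℤ) = ((t' : ℕ) : ℤ) := h
      omega
  refine h1.trans ?_
  rw [Int.card_Icc]
  omega

/-- product version -/
lemma card_le_three_pow (n N : ℕ) (z : Fin n → ℝ) (v w : ℝ) (hw : 0 < w) (hv : w ≤ v) :
    ((univ : Finset (Fin n → Fin N)).filter fun d : Fin n → Fin N => ∀ a, |z a - v * ((d a : ℕ) : ℝ)| ≤ w).card ≤
      3 ^ n := by
  have h1 : ((univ : Finset (Fin n → Fin N)).filter fun d : Fin n → Fin N => ∀ a, |z a - v * ((d a : ℕ) : ℝ)| ≤ w) =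
      Fintype.piFinset fun a => (univ : Finset (Fin N)).filter fun t : Fin N =>
        |z a - v * ((t : ℕ) : ℝ)| ≤ w := by
    ext d
    simp [Fintype.mem_piFinset]
  rw [h1, Fintype.card_piFinset]
  calc ∏ a, ((univ : Finset (Fin N)).filter fun t : Fin N => |z a - v * ((t : ℕ) : ℝ)| ≤ w).card
      ≤ ∏ _a : Fin n, 3 := prod_le_prod' fun a _ => card_le_three N (z a) v w hw hv
    _ = 3 ^ n := by simp

/-- two-step estimate: a point is near few of the segments -/
lemma pair_count (n N : ℕ) (z : Fin n → ℝ) (w θ : ℝ) (hw : 0 < w) :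
    ∑ d : Fin n → Fin N, ((univ : Finset (Fin n → Fin N)).filter fun d' =>
      ∀ a, |z a - 2 * w * ((1 - θ) * (d a : ℕ) + θ * (d' a : ℕ))| ≤ w).card ≤ N ^ n * 3 ^ n := by
  by_cases hθ : θ ≤ 1 / 2
  · have h2 : ∑ d : Fin n → Fin N, ((univ : Finset (Fin n → Fin N)).filter fun d' =>
        ∀ a, |z a - 2 * w * ((1 - θ) * (d a : ℕ) + θ * (d' a : ℕ))| ≤ w).card =
        ∑ d' : Fin n → Fin N, ((univ : Finset (Fin n → Fin N)).filter fun d =>
        ∀ a, |z a - 2 * w * ((1 - θ) * (d a : ℕ) + θ * (d' a : ℕ))| ≤ w).card := by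
      simp only [card_filter]
      rw [sum_comm]
    rw [h2]
    calc ∑ d' : Fin n → Fin N, ((univ : Finset (Fin n → Fin N)).filter fun d =>
        ∀ a, |z a - 2 * w * ((1 - θ) * (d a : ℕ) + θ * (d' a : ℕ))| ≤ w).card
        ≤ ∑ _d' : Fin n → Fin N, 3 ^ n := by
          refine sum_le_sum fun d' _ => ?_
          have h3 := card_le_three_pow n N (fun a => z a - 2 * w * (θ * (d' a : ℕ)))
            (2 * w * (1 - θ)) w hw (by nlinarith)
          refine le_trans (card_le_card ?_) h3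
          intro d hd
          rw [mem_filter] at hd ⊢
          refine ⟨mem_univ _, fun a => ?_⟩
          have e : z a - 2 * w * (θ * (d' a : ℕ)) - 2 * w * (1 - θ) * (d a : ℕ) =
              z a - 2 * w * ((1 - θ) * (d a : ℕ) + θ * (d' a : ℕ)) := by ring
          rw [e]
          exact hd.2 a
      _ = N ^ n * 3 ^ n := by simp
  · rw [not_le] at hθ
    calc ∑ d : Fin n → Fin N, ((univ : Finset (Fin n → Fin N)).filter fun d' =>
        ∀ a, |z a - 2 * w * ((1 - θ) * (d a : ℕ) + θ * (d' a : ℕ))| ≤ w).card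
        ≤ ∑ _d : Fin n → Fin N, 3 ^ n := by
          refine sum_le_sum fun d _ => ?_
          have h3 := card_le_three_pow n N (fun a => z a - 2 * w * ((1 - θ) * (d a : ℕ)))
            (2 * w * θ) w hw (by nlinarith)
          refine le_trans (card_le_card ?_) h3
          intro d' hd
          rw [mem_filter] at hd ⊢
          refine ⟨mem_univ _, fun a => ?_⟩
          have e : z a - 2 * w * ((1 - θ) * (d a : ℕ)) - 2 * w * θ * (d' a : ℕ) =
              z a - 2 * w * ((1 - θ) * (d a : ℕ) + θ * (d' a : ℕ)) := by ring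
          rw [e]
          exact hd.2 a
      _ = N ^ n * 3 ^ n := by simp

end one

section defs

variable {n : ℕ} (N : ℕ) (R : ℕ) (w : ℝ)

/-- epoch length of level `k` -/
def Rk (k : ℕ) : ℕ := (4 * N) ^ k * R

/-- tube radius of level `k` -/
noncomputable def wk (k : ℕ) : ℝ := (2 * N : ℝ) ^ k * w

variable {N}

/-- displacement of level `k` at progress `x` -/
noncomputable def disp (c : Plan n N) (k x : ℕ) (a : Fin n) : ℝ :=
  2 * wk N w k * ((1 - ((x : ℝ) - (x / Rk N R k : ℕ) * (Rk N R k : ℕ)) / (Rk N R k : ℕ)) *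
      (c k (x / Rk N R k) a : ℕ) +
    (((x : ℝ) - (x / Rk N R k : ℕ) * (Rk N R k : ℕ)) / (Rk N R k : ℕ)) *
      (c k (x / Rk N R k + 1) a : ℕ))

/-- the axis of level `k` -/
noncomputable def axis (c : Plan n N) (k x : ℕ) (a : Fin n) : ℝ :=
  ∑ k' ∈ Ico k (x + 1), disp R w c k' x a

/-- change one node -/
def upd (c : Plan n N) (k i : ℕ) (d : Fin n → Fin N) : Plan n N :=
  Function.update c k (Function.update (c k) i d)

lemma upd_same (c : Plan n N) (k i : ℕ) (d : Fin n → Fin N) : upd c k i d k i = d := by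
  simp [upd]

lemma upd_ne (c : Plan n N) (k i : ℕ) (d : Fin n → Fin N) (k' i' : ℕ) (h : k' ≠ k ∨ i' ≠ i) :
    upd c k i d k' i' = c k' i' := by
  unfold upd
  by_cases hk : k' = k
  · subst hk
    rw [Function.update_self]
    rw [Function.update_of_ne (by tauto)]
  · rw [Function.update_of_ne hk]

variable {E : Type} (tm : E → ℕ) (ps : E → Fin n → ℝ)

open Classical in
/-- number of obstacles in a tube -/
noncomputable def tube (c : Plan n N) (k i : ℕ) (B : Finset E) : ℕ :=
  (B.filter fun o => tm o / Rk N R k = i ∧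
    ∀ a, |ps o a - axis R w c k (tm o) a| ≤ wk N w k).card

/-- average number of obstacles in the tube of epoch `i` over the choices of its end node -/
noncomputable def gsum (c : Plan n N) (k i : ℕ) (B : Finset E) : ℝ :=
  (∑ d : Fin n → Fin N, (tube R w tm ps (upd c k (i + 1) d) k i B : ℝ)) / (N : ℝ) ^ n

/-- the invariant of a level -/
def Inv (b : ℝ) (c : Plan n N) (k m : ℕ) (B : Finset E) : Prop :=
  (tube R w tm ps c k (m / Rk N R k) B : ℝ) ≤
    16 * b * Rk N R k + b * ((m : ℝ) - (m / Rk N R k : ℕ) * (Rk N R k : ℕ) + (Rk N R k : ℕ)) ∧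
  (tube R w tm ps c k (m / Rk N R k + 1) B : ℝ) ≤
    16 * b * Rk N R k + b * ((m : ℝ) - (m / Rk N R k : ℕ) * (Rk N R k : ℕ)) ∧
  gsum R w tm ps c k (m / Rk N R k + 2) B ≤
    2 * b * Rk N R k + b * ((m : ℝ) - (m / Rk N R k : ℕ) * (Rk N R k : ℕ))

/-- first two nodes are zero -/
def ZP (c : Plan n N) : Prop := ∀ k a, (c k 0 a : ℕ) = 0 ∧ (c k 1 a : ℕ) = 0

end defs

section basic

variable {n N : ℕ} {R : ℕ} {w : ℝ}

lemma Rk_pos (hN : 0 < N) (hR : 0 < R) (k : ℕ) : 0 < Rk N R k := by unfold Rk; positivity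

lemma Rk_succ (k : ℕ) : Rk N R (k + 1) = Rk N R k * (4 * N) := by unfold Rk; ring

lemma wk_succ (k : ℕ) : wk N w (k + 1) = 2 * N * wk N w k := by unfold wk; ring

lemma wk_pos (hN : 0 < N) (hw : 0 < w) (k : ℕ) : 0 < wk N w k := by
  unfold wk
  have : (0 : ℝ) < N := by exact_mod_cast hN
  positivity

lemma Rk_le_of_lt (hN : 0 < N) {k k' : ℕ} (h : k < k') : Rk N R k * (4 * N) ≤ Rk N R k' := by
  rw [← Rk_succ]
  unfold Rk
  exact Nat.mul_le_mul_right _ (Nat.pow_le_pow_right (by omega) h)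

lemma le_Rk (hN : 0 < N) (k : ℕ) : R ≤ Rk N R k := by
  unfold Rk
  exact Nat.le_mul_of_pos_left _ (by positivity)

lemma lt_Rk (hN : 0 < N) (hR : 0 < R) (k : ℕ) : k < Rk N R k := by
  unfold Rk
  calc k < 2 ^ k := Nat.lt_two_pow_self
    _ ≤ (4 * N) ^ k := Nat.pow_le_pow_left (by omega) k
    _ ≤ (4 * N) ^ k * R := Nat.le_mul_of_pos_right _ hR

lemma disp_zero {c : Plan n N} (hc : ZP c) {k x : ℕ} (h : x < Rk N R k) (a : Fin n) :
    disp R w c k x a = 0 := by
  unfold disp
  rw [Nat.div_eq_of_lt h, (hc k a).1, zero_add, (hc k a).2]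
  simp

lemma axis_rec (hN : 0 < N) (hR : 0 < R) {c : Plan n N} (hc : ZP c) (k x : ℕ) (a : Fin n) :
    axis R w c k x a = disp R w c k x a + axis R w c (k + 1) x a := by
  unfold axis
  by_cases h : k < x + 1
  · rw [Finset.sum_eq_sum_Ico_succ_bot h]
  · rw [Finset.Ico_eq_empty h, Finset.Ico_eq_empty (by omega), Finset.sum_empty,
      disp_zero hc ((by omega : x < k).trans (lt_Rk hN hR k))]
    simp

lemma disp_congr {c c' : Plan n N} {k x : ℕ}
    (h : c k (x / Rk N R k) = c' k (x / Rk N R k) ∧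
      c k (x / Rk N R k + 1) = c' k (x / Rk N R k + 1)) (a : Fin n) :
    disp R w c k x a = disp R w c' k x a := by
  unfold disp
  rw [h.1, h.2]

lemma axis_congr {c c' : Plan n N} {k x : ℕ}
    (h : ∀ k', k ≤ k' → c k' (x / Rk N R k') = c' k' (x / Rk N R k') ∧
      c k' (x / Rk N R k' + 1) = c' k' (x / Rk N R k' + 1)) (a : Fin n) :
    axis R w c k x a = axis R w c' k x a := by
  unfold axis
  refine sum_congr rfl fun k' hk' => ?_
  exact disp_congr (h k' (mem_Ico.1 hk').1) a

lemma idx_le (hN : 0 < N) (hR : 0 < R) {k k' m x : ℕ} (hk : k < k')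
    (h : x / Rk N R k ≤ m / Rk N R k + 2) : x / Rk N R k' ≤ m / Rk N R k' + 1 := by
  have h0 := Rk_pos hN hR k
  have h1 := Rk_pos hN hR k'
  have h2 : x < (m / Rk N R k + 3) * Rk N R k := by
    have := Nat.lt_mul_div_succ x h0
    calc x < Rk N R k * (x / Rk N R k + 1) := this
      _ ≤ (m / Rk N R k + 3) * Rk N R k := by
        rw [mul_comm]; exact Nat.mul_le_mul_right _ (by omega)
  have h3 : m / Rk N R k * Rk N R k ≤ m := Nat.div_mul_le_self _ _
  have h4 : Rk N R k * (4 * N) ≤ Rk N R k' := Rk_le_of_lt hN hk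
  have h5 : Rk N R k * 4 ≤ Rk N R k * (4 * N) := Nat.mul_le_mul_left _ (by omega)
  have h6 : x ≤ m + Rk N R k' := by nlinarith
  calc x / Rk N R k' ≤ (m + Rk N R k') / Rk N R k' := Nat.div_le_div_right h6
    _ = m / Rk N R k' + 1 := Nat.add_div_right _ h1

variable {E : Type} {tm : E → ℕ} {ps : E → Fin n → ℝ}

lemma tube_congr {c c' : Plan n N} {k i : ℕ} (B : Finset E)
    (h : ∀ x, x / Rk N R k = i → ∀ k', k ≤ k' → c k' (x / Rk N R k') = c' k' (x / Rk N R k') ∧
      c k' (x / Rk N R k' + 1) = c' k' (x / Rk N R k' + 1)) :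
    tube R w tm ps c k i B = tube R w tm ps c' k i B := by
  classical
  unfold tube
  congr 1
  refine filter_congr fun o _ => ?_
  refine and_congr_right fun ho => ?_
  refine forall_congr' fun a => ?_
  rw [axis_congr (h (tm o) ho) a]

lemma tube_mono' (c : Plan n N) (k i : ℕ) {B B' : Finset E} (h : B ⊆ B') :
    (tube R w tm ps c k i B' : ℝ) ≤ tube R w tm ps c k i B + ((B'.card : ℝ) - B.card) := by
  classical
  have h1 : tube R w tm ps c k i B' ≤ tube R w tm ps c k i B + (B' \ B).card := by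
    unfold tube
    refine le_trans (card_le_card ?_) (card_union_le _ _)
    intro o ho
    rw [mem_filter] at ho
    rw [mem_union, mem_filter, mem_sdiff]
    by_cases hb : o ∈ B
    · left; exact ⟨hb, ho.2⟩
    · right; exact ⟨ho.1, hb⟩
  have h2 : (B' \ B).card + B.card = B'.card := card_sdiff_add_card_eq_card h
  have h3 : ((B' \ B).card : ℝ) = B'.card - B.card := by
    rw [← h2]; push_cast; ring
  rw [← h3]
  exact_mod_cast h1

lemma gsum_mono' (hN : 0 < N) (c : Plan n N) (k i : ℕ) {B B' : Finset E} (h : B ⊆ B') :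
    gsum R w tm ps c k i B' ≤ gsum R w tm ps c k i B + ((B'.card : ℝ) - B.card) := by
  have hN' : (0 : ℝ) < (N : ℝ) ^ n := by
    have : (0 : ℝ) < N := by exact_mod_cast hN
    positivity
  unfold gsum
  rw [div_le_iff₀ hN', add_mul, div_mul_cancel₀ _ hN'.ne']
  calc (∑ d : Fin n → Fin N, (tube R w tm ps (upd c k (i + 1) d) k i B' : ℝ))
      ≤ ∑ d : Fin n → Fin N, ((tube R w tm ps (upd c k (i + 1) d) k i B : ℝ) +
          ((B'.card : ℝ) - B.card)) := sum_le_sum fun d _ => tube_mono' _ _ _ h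
    _ = _ := by
      rw [sum_add_distrib, sum_const, card_univ, Fintype.card_fun, Fintype.card_fin,
        Fintype.card_fin, nsmul_eq_mul]
      push_cast
      ring

lemma gsum_congr (c c' : Plan n N) (k i : ℕ) (B : Finset E)
    (h : ∀ d, tube R w tm ps (upd c k (i + 1) d) k i B =
      tube R w tm ps (upd c' k (i + 1) d) k i B) :
    gsum R w tm ps c k i B = gsum R w tm ps c' k i B := by
  unfold gsum
  rw [sum_congr rfl fun d _ => by rw [h d]]

end basic

end Pool.Agent.Helper30.Perc.Steer
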