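import Pool.Agent.Helper30.Perc.Steer

/-! Multi-scale steering: the step of the construction. -/

namespace Pool.Agent.Helper30.Perc.Steer

open Finset

variable {n N : ℕ} {R : ℕ} {w : ℝ} {E : Type} {tm : E → ℕ} {ps : E → Fin n → ℝ}

lemma zp_upd {c : Plan n N} (hc : ZP c) (k i : ℕ) (hi : 2 ≤ i) (d : Fin n → Fin N) :
    ZP (upd c k i d) := by
  intro k' a
  rw [upd_ne c k i d k' 0 (Or.inr (by omega)), upd_ne c k i d k' 1 (Or.inr (by omega))]
  exact hc k' a

/-- the progress inside an epoch -/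
noncomputable def prog (N R k x : ℕ) : ℝ :=
  ((x : ℝ) - (x / Rk N R k : ℕ) * (Rk N R k : ℕ)) / (Rk N R k : ℕ)

lemma prog_nonneg (k x : ℕ) : 0 ≤ prog N R k x := by
  unfold prog
  apply div_nonneg _ (Nat.cast_nonneg _)
  have : x / Rk N R k * Rk N R k ≤ x := Nat.div_mul_le_self _ _
  have : ((x / Rk N R k : ℕ) : ℝ) * (Rk N R k : ℕ) ≤ x := by exact_mod_cast this
  linarith

lemma prog_le (hN : 0 < N) (hR : 0 < R) (k x : ℕ) : prog N R k x ≤ 1 := by
  unfold prog
  have h0 := Rk_pos hN hR k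
  have h0' : (0 : ℝ) < (Rk N R k : ℕ) := by exact_mod_cast h0
  rw [div_le_one h0']
  have := Nat.lt_mul_div_succ x h0
  have h2 : (x : ℝ) < (Rk N R k : ℕ) * ((x / Rk N R k : ℕ) + 1) := by exact_mod_cast this
  linarith

lemma disp_eq (c : Plan n N) (k x : ℕ) (a : Fin n) : disp R w c k x a =
    2 * wk N w k * ((1 - prog N R k x) * (c k (x / Rk N R k) a : ℕ) +
      prog N R k x * (c k (x / Rk N R k + 1) a : ℕ)) := rfl

lemma axis_upd_high (c : Plan n N) (k i : ℕ) (d : Fin n → Fin N) (x : ℕ) (a : Fin n) :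
    axis R w (upd c k i d) (k + 1) x a = axis R w c (k + 1) x a := by
  refine axis_congr (fun k' hk' => ?_) a
  exact ⟨upd_ne _ _ _ _ _ _ (Or.inl (by omega)), upd_ne _ _ _ _ _ _ (Or.inl (by omega))⟩

/-- axis of the doubly updated plan -/
lemma axis_upd2 (hN : 0 < N) (hR : 0 < R) {c : Plan n N} (hc : ZP c) (k i : ℕ) (hi : 2 ≤ i)
    (d d' : Fin n → Fin N) (x : ℕ) (hx : x / Rk N R k = i) (a : Fin n) :
    axis R w (upd (upd c k i d) k (i + 1) d') k x a =
      2 * wk N w k * ((1 - prog N R k x) * (d a : ℕ) + prog N R k x * (d' a : ℕ)) +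
        axis R w c (k + 1) x a := by
  rw [axis_rec hN hR (zp_upd (zp_upd hc k i hi d) k (i + 1) (by omega) d') k x a,
    axis_upd_high, axis_upd_high, disp_eq, hx, upd_same,
    upd_ne _ _ _ _ _ _ (Or.inr (by omega)), upd_same]

lemma double (hN : 0 < N) (hR : 0 < R) (hw : 0 < w) {c : Plan n N} (hc : ZP c) (k i : ℕ)
    (hi : 2 ≤ i) (B : Finset E) :
    ∑ d : Fin n → Fin N, ∑ d' : Fin n → Fin N,
      tube R w tm ps (upd (upd c k i d) k (i + 1) d') k i B ≤
      N ^ n * 3 ^ n * tube R w tm ps c (k + 1) (i / (4 * N)) B := by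
  classical
  have h1 : ∀ d d' : Fin n → Fin N, tube R w tm ps (upd (upd c k i d) k (i + 1) d') k i B =
      ∑ o ∈ B, if tm o / Rk N R k = i ∧
        ∀ a, |ps o a - axis R w (upd (upd c k i d) k (i + 1) d') k (tm o) a| ≤ wk N w k
        then 1 else 0 := by
    intro d d'
    unfold tube
    rw [card_filter]
  have h2 : tube R w tm ps c (k + 1) (i / (4 * N)) B =
      ∑ o ∈ B, if tm o / Rk N R (k + 1) = i / (4 * N) ∧
        ∀ a, |ps o a - axis R w c (k + 1) (tm o) a| ≤ wk N w (k + 1) then 1 else 0 := by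
    unfold tube
    rw [card_filter]
  rw [h2, mul_sum]
  simp_rw [h1]
  have h3 : ∀ d : Fin n → Fin N, ∑ d' : Fin n → Fin N, (∑ o ∈ B, if tm o / Rk N R k = i ∧
        ∀ a, |ps o a - axis R w (upd (upd c k i d) k (i + 1) d') k (tm o) a| ≤ wk N w k
        then 1 else 0) = ∑ o ∈ B, ∑ d' : Fin n → Fin N, if tm o / Rk N R k = i ∧
        ∀ a, |ps o a - axis R w (upd (upd c k i d) k (i + 1) d') k (tm o) a| ≤ wk N w k
        then 1 else 0 := fun d => sum_comm
  simp_rw [h3]
  rw [sum_comm]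
  refine sum_le_sum fun o _ => ?_
  by_cases ho : tm o / Rk N R k = i
  · have ho1 : tm o / Rk N R (k + 1) = i / (4 * N) := by
      rw [Rk_succ, ← Nat.div_div_eq_div_mul, ho]
    have hax := fun d d' a => axis_upd2 (R := R) (w := w) hN hR hc k i hi d d' (tm o) ho a
    simp only [ho, true_and, ho1, hax]
    by_cases h4 : ∀ a, |ps o a - axis R w c (k + 1) (tm o) a| ≤ wk N w (k + 1)
    · rw [if_pos h4, mul_one]
      have h5 := pair_count n N (fun a => ps o a - axis R w c (k + 1) (tm o) a) (wk N w k)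
        (prog N R k (tm o)) (wk_pos hN hw k)
      refine le_trans (le_of_eq ?_) h5
      refine sum_congr rfl fun d _ => ?_
      rw [card_filter]
      refine sum_congr rfl fun d' _ => ?_
      refine if_congr (forall_congr' fun a => ?_) rfl rfl
      rw [show ps o a - (2 * wk N w k * ((1 - prog N R k (tm o)) * ((d a : ℕ) : ℝ) +
        prog N R k (tm o) * ((d' a : ℕ) : ℝ)) + axis R w c (k + 1) (tm o) a) =
        ps o a - axis R w c (k + 1) (tm o) a - 2 * wk N w k *
          ((1 - prog N R k (tm o)) * ((d a : ℕ) : ℝ) + prog N R k (tm o) * ((d' a : ℕ) : ℝ)) by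
        ring]
    · rw [if_neg h4, mul_zero]
      refine le_of_eq ?_
      refine sum_eq_zero fun d _ => sum_eq_zero fun d' _ => ?_
      refine if_neg fun h5 => h4 fun a => ?_
      have h6 := h5 a
      have hd : ((d a : ℕ) : ℝ) ≤ N - 1 := by
        have : (d a : ℕ) + 1 ≤ N := (d a).2
        have : ((d a : ℕ) : ℝ) + 1 ≤ N := by exact_mod_cast this
        linarith
      have hd' : ((d' a : ℕ) : ℝ) ≤ N - 1 := by
        have : (d' a : ℕ) + 1 ≤ N := (d' a).2
        have : ((d' a : ℕ) : ℝ) + 1 ≤ N := by exact_mod_cast this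
        linarith
      have hp0 := prog_nonneg (N := N) (R := R) k (tm o)
      have hp1 := prog_le hN hR k (tm o)
      have hw0 := wk_pos hN hw k
      set p := prog N R k (tm o)
      have hd0 : (0 : ℝ) ≤ ((d a : ℕ) : ℝ) := Nat.cast_nonneg _
      have hd0' : (0 : ℝ) ≤ ((d' a : ℕ) : ℝ) := Nat.cast_nonneg _
      set u := (1 - p) * ((d a : ℕ) : ℝ) + p * ((d' a : ℕ) : ℝ) with hu
      have hu0 : 0 ≤ u := by
        rw [hu]; exact add_nonneg (mul_nonneg (by linarith) hd0) (mul_nonneg hp0 hd0')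
      have hu1 : u ≤ N - 1 := by
        rw [hu]
        have e1 : (1 - p) * ((d a : ℕ) : ℝ) ≤ (1 - p) * (N - 1) :=
          mul_le_mul_of_nonneg_left hd (by linarith)
        have e2 : p * ((d' a : ℕ) : ℝ) ≤ p * (N - 1) := mul_le_mul_of_nonneg_left hd' hp0
        linarith
      have hu2 : 2 * wk N w k * u ≤ 2 * wk N w k * (N - 1) :=
        mul_le_mul_of_nonneg_left hu1 (by linarith)
      have hu3 : 0 ≤ 2 * wk N w k * u := mul_nonneg (by linarith) hu0
      rw [abs_le] at h6 ⊢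
      rw [wk_succ]
      constructor <;> nlinarith [h6.1, h6.2]
  · refine le_trans (le_of_eq ?_) (Nat.zero_le _)
    refine sum_eq_zero fun d _ => sum_eq_zero fun d' _ => ?_
    exact if_neg fun h => ho h.1

lemma double' (hN : 0 < N) (hR : 0 < R) (hw : 0 < w) {c : Plan n N} (hc : ZP c) (k i : ℕ)
    (hi : 2 ≤ i) (B : Finset E) :
    ∑ d : Fin n → Fin N, gsum R w tm ps (upd c k i d) k i B ≤
      3 ^ n * (tube R w tm ps c (k + 1) (i / (4 * N)) B : ℝ) := by
  have h1 := double (tm := tm) (ps := ps) hN hR hw hc k i hi B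
  have hN' : (0 : ℝ) < (N : ℝ) ^ n := by
    have : (0 : ℝ) < N := by exact_mod_cast hN
    positivity
  unfold gsum
  rw [← sum_div, div_le_iff₀ hN']
  calc ∑ d : Fin n → Fin N, ∑ d' : Fin n → Fin N,
      (tube R w tm ps (upd (upd c k i d) k (i + 1) d') k i B : ℝ)
      = ((∑ d : Fin n → Fin N, ∑ d' : Fin n → Fin N,
        tube R w tm ps (upd (upd c k i d) k (i + 1) d') k i B : ℕ) : ℝ) := by push_cast; rfl
    _ ≤ ((N ^ n * 3 ^ n * tube R w tm ps c (k + 1) (i / (4 * N)) B : ℕ) : ℝ) := by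
      exact_mod_cast h1
    _ = _ := by push_cast; ring

/-- invariants only depend on the decided nodes -/
lemma inv_agree (hN : 0 < N) (hR : 0 < R) {b : ℝ} {c c' : Plan n N} {k m : ℕ} {B : Finset E}
    (h : ∀ k', k ≤ k' → ∀ i, i ≤ m / Rk N R k' + 2 → c k' i = c' k' i)
    (hI : Inv R w tm ps b c k m B) : Inv R w tm ps b c' k m B := by
  have key : ∀ i, i ≤ m / Rk N R k + 1 →
      tube R w tm ps c k i B = tube R w tm ps c' k i B := by
    intro i hi
    refine tube_congr B fun x hx k' hk' => ?_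
    have h1 : x / Rk N R k' ≤ m / Rk N R k' + 1 := by
      rcases hk'.eq_or_lt with e | e
      · subst e; omega
      · exact idx_le hN hR e (by omega)
    exact ⟨h k' hk' _ (by omega), h k' hk' _ (by omega)⟩
  obtain ⟨h1, h2, h3⟩ := hI
  refine ⟨?_, ?_, ?_⟩
  · rw [← key _ (by omega)]; exact h1
  · rw [← key _ (by omega)]; exact h2
  · rw [← gsum_congr c c']
    · exact h3
    · intro d
      refine tube_congr B fun x hx k' hk' => ?_
      rcases hk'.eq_or_lt with e | e
      · subst e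
        rw [hx, upd_same, upd_same, upd_ne _ _ _ _ _ _ (Or.inr (by omega)),
          upd_ne _ _ _ _ _ _ (Or.inr (by omega))]
        exact ⟨h _ le_rfl _ (by omega), rfl⟩
      · have h1 : x / Rk N R k' ≤ m / Rk N R k' + 1 := idx_le hN hR e (by omega)
        rw [upd_ne _ _ _ _ _ _ (Or.inl (by omega)), upd_ne _ _ _ _ _ _ (Or.inl (by omega)),
          upd_ne _ _ _ _ _ _ (Or.inl (by omega)), upd_ne _ _ _ _ _ _ (Or.inl (by omega))]
        exact ⟨h k' hk' _ (by omega), h k' hk' _ (by omega)⟩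

/-- the same epoch -/
lemma inv_same (hN : 0 < N) {b : ℝ} {c : Plan n N} {k m m' : ℕ} {B B' : Finset E}
    (hm : m' / Rk N R k = m / Rk N R k) (hB : B ⊆ B')
    (hc : (B'.card : ℝ) - B.card ≤ b * ((m' : ℝ) - m))
    (hI : Inv R w tm ps b c k m B) : Inv R w tm ps b c k m' B' := by
  obtain ⟨h1, h2, h3⟩ := hI
  unfold Inv
  rw [hm]
  refine ⟨?_, ?_, ?_⟩
  · have := tube_mono' (R := R) (w := w) (tm := tm) (ps := ps) c k (m / Rk N R k) hB
    linarith
  · have := tube_mono' (R := R) (w := w) (tm := tm) (ps := ps) c k (m / Rk N R k + 1) hB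
    linarith
  · have := gsum_mono' (R := R) (w := w) (tm := tm) (ps := ps) hN c k (m / Rk N R k + 2) hB
    linarith

/-- the next epoch -/
lemma inv_next (hN : 1000 ≤ N) (hn : 2 ≤ n) (hR : 0 < R) (hw : 0 < w) {b : ℝ} (hb : 0 < b)
    {c : Plan n N} (hc : ZP c) {k m m' : ℕ} {B B' : Finset E}
    (hm : m' / Rk N R k = m / Rk N R k + 1) (hB : B ⊆ B')
    (hcard : (B'.card : ℝ) - B.card ≤ b * ((m' : ℝ) - m))
    (hI : Inv R w tm ps b c k m B) (hI' : Inv R w tm ps b c (k + 1) m' B') :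
    ∃ d, Inv R w tm ps b (upd c k (m' / Rk N R k + 2) d) k m' B' := by
  have hN0 : 0 < N := by omega
  have hNr : (1000 : ℝ) ≤ N := by exact_mod_cast hN
  have hr0 := Rk_pos hN0 hR k
  have hr0' : (0 : ℝ) < (Rk N R k : ℕ) := by exact_mod_cast hr0
  obtain ⟨h1, h2, h3⟩ := hI
  set j := m / Rk N R k with hj
  set r := Rk N R k with hr
  -- real inequality for m'
  have hm1 : (m' : ℝ) < ((j : ℝ) + 2) * (r : ℕ) := by
    have := Nat.lt_mul_div_succ m' hr0
    rw [hm] at this
    have h : (m' : ℝ) < (r : ℕ) * (((j + 1 : ℕ) : ℝ) + 1) := by exact_mod_cast this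
    push_cast at h
    linarith
  have hm2 : ((j : ℝ) + 1) * (r : ℕ) ≤ m' := by
    have := Nat.div_mul_le_self m' r
    rw [hm] at this
    exact_mod_cast this
  -- gsum bound
  have hG : gsum R w tm ps c k (j + 2) B' ≤ 4 * b * r := by
    have := gsum_mono' (R := R) (w := w) (tm := tm) (ps := ps) hN0 c k (j + 2) hB
    nlinarith
  -- bound for the second one
  set J := m' / Rk N R (k + 1) with hJ
  have hrs : Rk N R (k + 1) = r * (4 * N) := by rw [hr, Rk_succ]
  have hJj : J = (j + 1) / (4 * N) := by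
    rw [hJ, hrs, ← Nat.div_div_eq_div_mul, hm]
  have hJ1 : (J : ℝ) * (Rk N R (k + 1) : ℕ) ≤ m' := by
    have := Nat.div_mul_le_self m' (Rk N R (k + 1))
    rw [hJ]
    exact_mod_cast this
  have hJ2 : (m' : ℝ) ≤ ((J : ℝ) + 1) * (Rk N R (k + 1) : ℕ) := by
    have := Nat.lt_mul_div_succ m' (Rk_pos hN0 hR (k + 1))
    have h : (m' : ℝ) < (Rk N R (k + 1) : ℕ) * ((J : ℝ) + 1) := by rw [hJ]; exact_mod_cast this
    linarith
  have hT : (tube R w tm ps c (k + 1) ((j + 3) / (4 * N)) B' : ℝ) ≤ 18 * b * (Rk N R (k + 1)) := by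
    have hcase : (j + 3) / (4 * N) = J ∨ (j + 3) / (4 * N) = J + 1 := by
      have h5 : (j + 1) / (4 * N) ≤ (j + 3) / (4 * N) :=
        Nat.div_le_div_right (Nat.add_le_add_left (by norm_num) j)
      have h6 : (j + 3) / (4 * N) ≤ (j + 1) / (4 * N) + 1 := by
        have e : j + 3 ≤ j + 1 + 4 * N := by clear_value j; omega
        calc (j + 3) / (4 * N) ≤ (j + 1 + 4 * N) / (4 * N) := Nat.div_le_div_right e
          _ = _ := Nat.add_div_right _ (by omega)
      rw [hJj]
      generalize (j + 3) / (4 * N) = u at *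
      generalize (j + 1) / (4 * N) = v at *
      omega
    have hrk : (0 : ℝ) < (Rk N R (k + 1) : ℕ) := by exact_mod_cast Rk_pos hN0 hR (k + 1)
    obtain ⟨i1, i2, -⟩ := hI'
    rcases hcase with e | e
    · rw [e]; nlinarith
    · rw [e]; nlinarith
  have hj3 : 2 ≤ j + 3 := Nat.le_add_left 2 (j + 1)
  have hD := double' (tm := tm) (ps := ps) hN0 hR hw hc k (j + 3) hj3 B'
  -- averaging
  have hS : ∑ d : Fin n → Fin N, (tube R w tm ps (upd c k (j + 3) d) k (j + 2) B' : ℝ) ≤
      (N : ℝ) ^ n * (4 * b * r) := by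
    have hN' : (0 : ℝ) < (N : ℝ) ^ n := by positivity
    have := hG
    unfold gsum at this
    rw [div_le_iff₀ hN'] at this
    linarith
  have hbr : 0 < b * r := mul_pos hb hr0'
  have hex : ∃ d ∈ (univ : Finset (Fin n → Fin N)),
      (tube R w tm ps (upd c k (j + 3) d) k (j + 2) B' : ℝ) / (16 * b * r) +
        gsum R w tm ps (upd c k (j + 3) d) k (j + 3) B' / (2 * b * r) ≤ 1 := by
    apply exists_le_of_sum_le
    · have : Nonempty (Fin N) := ⟨⟨0, hN0⟩⟩
      exact univ_nonempty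
    · rw [sum_add_distrib, ← sum_div, ← sum_div, sum_const, card_univ, Fintype.card_fun,
        Fintype.card_fin, Fintype.card_fin, nsmul_eq_mul, mul_one]
      have hNn : (0 : ℝ) < (N : ℝ) ^ n := by positivity
      have e1 : (∑ d : Fin n → Fin N, (tube R w tm ps (upd c k (j + 3) d) k (j + 2) B' : ℝ)) /
          (16 * b * r) ≤ (N : ℝ) ^ n / 4 := by
        rw [div_le_iff₀ (by linarith)]
        calc _ ≤ _ := hS
          _ = _ := by ring
      have e2 : (∑ d : Fin n → Fin N, gsum R w tm ps (upd c k (j + 3) d) k (j + 3) B') /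
          (2 * b * r) ≤ (N : ℝ) ^ n * (324 / N) := by
        rw [div_le_iff₀ (by linarith)]
        have e3 : (3 : ℝ) ^ n * (N : ℝ) ^ 2 ≤ 9 * (N : ℝ) ^ n := by
          obtain ⟨l, rfl⟩ := Nat.exists_eq_add_of_le hn
          have e4 : (3 : ℝ) ^ l ≤ (N : ℝ) ^ l := pow_le_pow_left₀ (by norm_num) (by linarith) l
          calc (3 : ℝ) ^ (2 + l) * (N : ℝ) ^ 2 = 9 * (N : ℝ) ^ 2 * 3 ^ l := by ring
            _ ≤ 9 * (N : ℝ) ^ 2 * (N : ℝ) ^ l := mul_le_mul_of_nonneg_left e4 (by positivity)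
            _ = 9 * (N : ℝ) ^ (2 + l) := by ring
        calc (∑ d : Fin n → Fin N, gsum R w tm ps (upd c k (j + 3) d) k (j + 3) B')
            ≤ 3 ^ n * (tube R w tm ps c (k + 1) ((j + 3) / (4 * N)) B' : ℝ) := hD
          _ ≤ 3 ^ n * (18 * b * (Rk N R (k + 1))) :=
            mul_le_mul_of_nonneg_left hT (by positivity)
          _ = (3 ^ n * (N : ℝ) ^ 2) * (72 * (b * r) / N) := by
            rw [hrs]; push_cast; field_simp; ring
          _ ≤ (9 * (N : ℝ) ^ n) * (72 * (b * r) / N) :=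
            mul_le_mul_of_nonneg_right e3 (by positivity)
          _ = _ := by ring
      have e5 : (324 : ℝ) / N ≤ 324 / 1000 := by
        apply div_le_div_of_nonneg_left <;> linarith
      have e6 : (N : ℝ) ^ n * (324 / N) ≤ (N : ℝ) ^ n * (324 / 1000) :=
        mul_le_mul_of_nonneg_left e5 hNn.le
      push_cast
      linarith
  obtain ⟨d, -, hd⟩ := hex
  have hgn : 0 ≤ gsum R w tm ps (upd c k (j + 3) d) k (j + 3) B' := by
    unfold gsum; positivity
  have hd1 : (tube R w tm ps (upd c k (j + 3) d) k (j + 2) B' : ℝ) ≤ 16 * b * r := by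
    have : (tube R w tm ps (upd c k (j + 3) d) k (j + 2) B' : ℝ) / (16 * b * r) ≤ 1 := by
      have : 0 ≤ gsum R w tm ps (upd c k (j + 3) d) k (j + 3) B' / (2 * b * r) := by positivity
      linarith
    rwa [div_le_one (by linarith)] at this
  have hd2 : gsum R w tm ps (upd c k (j + 3) d) k (j + 3) B' ≤ 2 * b * r := by
    have : gsum R w tm ps (upd c k (j + 3) d) k (j + 3) B' / (2 * b * r) ≤ 1 := by
      have : 0 ≤ (tube R w tm ps (upd c k (j + 3) d) k (j + 2) B' : ℝ) / (16 * b * r) := by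
        positivity
      linarith
    rwa [div_le_one (by linarith)] at this
  refine ⟨d, ?_⟩
  unfold Inv
  rw [hm]
  have hnn : 0 ≤ b * ((m' : ℝ) - ((j + 1 : ℕ) : ℝ) * (r : ℕ)) := by
    apply mul_nonneg hb.le
    push_cast
    linarith
  refine ⟨?_, ?_, ?_⟩
  · -- T1 from the old T2
    have e1 : tube R w tm ps (upd c k (j + 1 + 2) d) k (j + 1) B' =
        tube R w tm ps c k (j + 1) B' := by
      refine tube_congr B' fun x hx k' hk' => ?_
      rcases hk'.eq_or_lt with e | e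
      · subst e
        rw [hx, upd_ne _ _ _ _ _ _ (Or.inr (by omega)), upd_ne _ _ _ _ _ _ (Or.inr (by omega))]
        exact ⟨rfl, rfl⟩
      · rw [upd_ne _ _ _ _ _ _ (Or.inl (by omega)), upd_ne _ _ _ _ _ _ (Or.inl (by omega))]
        exact ⟨rfl, rfl⟩
    rw [e1]
    have := tube_mono' (R := R) (w := w) (tm := tm) (ps := ps) c k (j + 1) hB
    push_cast
    nlinarith
  · have : j + 1 + 1 = j + 2 := rfl
    have e : j + 1 + 2 = j + 3 := rfl
    rw [this, e]
    linarith
  · have e : j + 1 + 2 = j + 3 := rfl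
    rw [e]
    linarith

end Pool.Agent.Helper30.Perc.Steer
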