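import Pool.Agent.Helper30.Perc.Steer2

/-! Multi-scale steering: the theorem. -/

namespace Pool.Agent.Helper30.Perc.Steer

open Finset

variable {n N : ℕ} {R : ℕ} {w : ℝ} {E : Type} {tm : E → ℕ} {ps : E → Fin n → ℝ}

lemma idx_step (hN : 0 < N) (hR : 0 < R) {m m' : ℕ} (h1 : m ≤ m') (h2 : m' ≤ m + R) (k : ℕ) :
    m' / Rk N R k = m / Rk N R k ∨ m' / Rk N R k = m / Rk N R k + 1 := by
  have h3 : m / Rk N R k ≤ m' / Rk N R k := Nat.div_le_div_right h1
  have h4 : m' / Rk N R k ≤ m / Rk N R k + 1 := by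
    calc m' / Rk N R k ≤ (m + Rk N R k) / Rk N R k :=
          Nat.div_le_div_right (h2.trans (Nat.add_le_add_left (le_Rk hN k) m))
      _ = _ := Nat.add_div_right _ (Rk_pos hN hR k)
  omega

lemma levels (hN : 1000 ≤ N) (hn : 2 ≤ n) (hR : 0 < R) (hw : 0 < w) {b : ℝ} (hb : 0 < b)
    {c : Plan n N} (hc : ZP c) {m m' : ℕ} {B B' : Finset E} (h1 : m ≤ m') (h2 : m' ≤ m + R)
    (hB : B ⊆ B') (hcard : (B'.card : ℝ) - B.card ≤ b * ((m' : ℝ) - m))
    (hI : ∀ k, Inv R w tm ps b c k m B) :
    ∀ s, s ≤ m' → ∃ c' : Plan n N, ZP c' ∧ (∀ k, m' - s ≤ k → Inv R w tm ps b c' k m' B') ∧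
      ∀ k i, i ≤ m / Rk N R k + 2 → c k i = c' k i := by
  have hN0 : 0 < N := by omega
  intro s
  induction s with
  | zero =>
    intro _
    refine ⟨c, hc, ?_, fun _ _ _ => rfl⟩
    intro k hk
    have h3 : m' < Rk N R k := lt_of_le_of_lt (by omega) (lt_Rk hN0 hR k)
    refine inv_same hN0 ?_ hB hcard (hI k)
    rw [Nat.div_eq_of_lt h3, Nat.div_eq_of_lt (h1.trans_lt h3)]
  | succ s ih =>
    intro hs
    obtain ⟨c', hc', hI', hag⟩ := ih (by omega)
    set k₀ := m' - (s + 1) with hk₀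
    have hk1 : m' - s = k₀ + 1 := by omega
    have hold : Inv R w tm ps b c' k₀ m B :=
      inv_agree hN0 hR (fun k' _ i hi => hag k' i hi) (hI k₀)
    rcases idx_step hN0 hR h1 h2 k₀ with e | e
    · refine ⟨c', hc', ?_, hag⟩
      intro k hk
      rcases hk.eq_or_lt with e' | e'
      · rw [← e']; exact inv_same hN0 e hB hcard hold
      · exact hI' k (by omega)
    · obtain ⟨d, hd⟩ := inv_next hN hn hR hw hb hc' e hB hcard hold (hI' (k₀ + 1) (by omega))
      have h2' : 2 ≤ m' / Rk N R k₀ + 2 := Nat.le_add_left _ _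
      refine ⟨upd c' k₀ (m' / Rk N R k₀ + 2) d, zp_upd hc' _ _ h2' d, ?_, ?_⟩
      · intro k hk
        rcases hk.eq_or_lt with e' | e'
        · rw [← e']; exact hd
        · refine inv_agree hN0 hR ?_ (hI' k (by omega))
          intro k' hk' i _
          rw [upd_ne _ _ _ _ _ _ (Or.inl (by omega))]
      · intro k i hi
        rw [hag k i hi]
        by_cases hkk : k = k₀
        · subst hkk
          rw [upd_ne _ _ _ _ _ _ (Or.inr (by omega))]
        · rw [upd_ne _ _ _ _ _ _ (Or.inl hkk)]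

lemma disp_step (hN : 0 < N) (hR : 0 < R) (c : Plan n N) (k x : ℕ) (a : Fin n) :
    disp R w c k (x + 1) a - disp R w c k x a = 2 * wk N w k *
      (((c k (x / Rk N R k + 1) a : ℕ) : ℝ) - ((c k (x / Rk N R k) a : ℕ) : ℝ)) /
        (Rk N R k : ℕ) := by
  have h0 := Rk_pos hN hR k
  have h0' : ((Rk N R k : ℕ) : ℝ) ≠ 0 := by
    have : (0 : ℝ) < (Rk N R k : ℕ) := by exact_mod_cast h0
    exact this.ne'
  have hx := Nat.div_add_mod x (Rk N R k)
  have hlt := Nat.mod_lt x h0
  unfold disp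
  set r := Rk N R k with hr
  set j := x / r with hj
  rcases Nat.lt_or_ge (x % r + 1) r with e | e
  · have h1 : (x + 1) / r = j := by
      apply Nat.div_eq_of_lt_le
      · rw [mul_comm]; omega
      · rw [mul_comm, Nat.mul_add]; omega
    rw [h1]
    push_cast
    field_simp
    ring
  · have h1 : x + 1 = (j + 1) * r := by
      have : x % r + 1 = r := by omega
      rw [add_mul, one_mul, mul_comm j r]; omega
    have h2 : (x + 1) / r = j + 1 := by rw [h1]; exact Nat.mul_div_cancel _ h0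
    rw [h2]
    have h3 : (x : ℝ) = (j + 1) * r - 1 := by
      have : ((x + 1 : ℕ) : ℝ) = (((j + 1) * r : ℕ) : ℝ) := by rw [h1]
      push_cast at this
      linarith
    push_cast
    rw [h3]
    field_simp
    ring

lemma axis_step (hN : 0 < N) (hR : 0 < R) (hw : 0 < w) {c : Plan n N} (hc : ZP c) (x : ℕ)
    (a : Fin n) : |axis R w c 0 (x + 1) a - axis R w c 0 x a| ≤ 4 * N * w / R := by
  have hNr : (0 : ℝ) < N := by exact_mod_cast hN
  have hRr : (0 : ℝ) < R := by exact_mod_cast hR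
  have h1 : axis R w c 0 x a = ∑ k ∈ range (x + 2), disp R w c k x a := by
    rw [sum_range_succ, disp_zero hc ((Nat.lt_succ_self x).trans (lt_Rk hN hR (x + 1))),
      add_zero]
    unfold axis
    rw [Nat.Ico_zero_eq_range]
  have h2 : axis R w c 0 (x + 1) a = ∑ k ∈ range (x + 2), disp R w c k (x + 1) a := by
    unfold axis
    rw [Nat.Ico_zero_eq_range]
  rw [h1, h2, ← sum_sub_distrib]
  calc |∑ k ∈ range (x + 2), (disp R w c k (x + 1) a - disp R w c k x a)|
      ≤ ∑ k ∈ range (x + 2), |disp R w c k (x + 1) a - disp R w c k x a| :=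
        abs_sum_le_sum_abs _ _
    _ ≤ ∑ k ∈ range (x + 2), (2 * N * w / R) * (1 / 2) ^ k := by
        refine sum_le_sum fun k _ => ?_
        rw [disp_step hN hR]
        have hr : (0 : ℝ) < (Rk N R k : ℕ) := by exact_mod_cast Rk_pos hN hR k
        have hwk := wk_pos hN hw k
        rw [abs_div, abs_of_pos hr, abs_mul, abs_of_pos (by linarith : 0 < 2 * wk N w k)]
        have h3 : |((c k (x / Rk N R k + 1) a : ℕ) : ℝ) - ((c k (x / Rk N R k) a : ℕ) : ℝ)| ≤
            N := by
          have e1 : ((c k (x / Rk N R k + 1) a : ℕ) : ℝ) ≤ N := by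
            exact_mod_cast (c k (x / Rk N R k + 1) a).2.le
          have e2 : ((c k (x / Rk N R k) a : ℕ) : ℝ) ≤ N := by
            exact_mod_cast (c k (x / Rk N R k) a).2.le
          have e3 : (0 : ℝ) ≤ ((c k (x / Rk N R k + 1) a : ℕ) : ℝ) := Nat.cast_nonneg _
          have e4 : (0 : ℝ) ≤ ((c k (x / Rk N R k) a : ℕ) : ℝ) := Nat.cast_nonneg _
          rw [abs_le]
          constructor <;> linarith
        rw [div_le_iff₀ hr]
        calc 2 * wk N w k * |((c k (x / Rk N R k + 1) a : ℕ) : ℝ) -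
              ((c k (x / Rk N R k) a : ℕ) : ℝ)|
            ≤ 2 * wk N w k * N := mul_le_mul_of_nonneg_left h3 (by linarith)
          _ = _ := by
            unfold wk Rk
            push_cast
            rw [mul_pow, mul_pow, show (4 : ℝ) = 2 * 2 by norm_num, mul_pow]
            field_simp
            rw [← mul_pow]
            norm_num
    _ = (2 * N * w / R) * ∑ k ∈ range (x + 2), (1 / 2 : ℝ) ^ k := by rw [mul_sum]
    _ ≤ (2 * N * w / R) * 2 := by
        apply mul_le_mul_of_nonneg_left _ (by positivity)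
        have := geom_sum_eq (by norm_num : (1 / 2 : ℝ) ≠ 1) (x + 2)
        rw [this]
        have : (0 : ℝ) ≤ (1 / 2) ^ (x + 2) := by positivity
        rw [div_le_iff_of_neg (by norm_num)]
        linarith
    _ = _ := by ring

lemma axis_lip (hN : 0 < N) (hR : 0 < R) (hw : 0 < w) {c : Plan n N} (hc : ZP c) (x l : ℕ)
    (a : Fin n) : |axis R w c 0 (x + l) a - axis R w c 0 x a| ≤ 4 * N * w / R * l := by
  induction l with
  | zero => simp
  | succ l ih =>
    have h1 := axis_step hN hR hw hc (x + l) a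
    have h2 : axis R w c 0 (x + (l + 1)) a - axis R w c 0 x a =
        (axis R w c 0 (x + l + 1) a - axis R w c 0 (x + l) a) +
          (axis R w c 0 (x + l) a - axis R w c 0 x a) := by
      rw [← add_assoc]; ring
    rw [h2]
    refine (abs_add_le _ _).trans ?_
    push_cast
    linarith

/-- The steering theorem: an axis `A` with small slope, decided a little ahead of time, which
against obstacles arriving at rate at most `b` per step always has at most `36 b R` obstacles
within lateral distance `w` on the next `R` steps. -/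
theorem steering {n : ℕ} (hn : 2 ≤ n) {E : Type} (tm : E → ℕ) (ps : E → Fin n → ℝ)
    {b w : ℝ} (hb : 0 < b) (hw : 0 < w) {R : ℕ} (hR : 0 < R) :
    ∃ St : ℕ → Finset E → (ℕ → Fin n → ℝ) → Prop,
      St 0 ∅ (fun _ _ => 0) ∧
      (∀ m B A, St m B A → ∀ x l a, |A (x + l) a - A x a| ≤ 4000 * w / R * l) ∧
      (∀ m B A, St m B A → ∀ S : Finset E, S ⊆ B →
        (∀ o ∈ S, m ≤ tm o ∧ tm o ≤ m + R ∧ ∀ a, |ps o a - A (tm o) a| ≤ w) →
          (S.card : ℝ) ≤ 36 * b * R) ∧
      (∀ m B A, St m B A → ∀ m' B', m ≤ m' → m' ≤ m + R → B ⊆ B' →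
        (B'.card : ℝ) - B.card ≤ b * ((m' : ℝ) - m) →
        ∃ A', (∀ x, x ≤ m + R → A' x = A x) ∧ St m' B' A') := by
  classical
  have hN : 1000 ≤ 1000 := le_rfl
  have hN0 : 0 < 1000 := by norm_num
  refine ⟨fun m B A => ∃ c : Plan n 1000, ZP c ∧ (∀ k, Inv R w tm ps b c k m B) ∧
    A = fun x a => axis R w c 0 x a, ?_, ?_, ?_, ?_⟩
  · refine ⟨fun _ _ _ => 0, fun _ _ => ⟨rfl, rfl⟩, ?_, ?_⟩
    · intro k
      have h0 : ∀ (c : Plan n 1000) k i, tube R w tm ps c k i ∅ = 0 := by
        intro c k i; simp [tube]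
      have hg : ∀ (c : Plan n 1000) k i, gsum R w tm ps c k i ∅ = 0 := by
        intro c k i; simp [gsum, h0]
      have hr : (0 : ℝ) < (Rk 1000 R k : ℕ) := by exact_mod_cast Rk_pos hN0 hR k
      have hbr := mul_pos hb hr
      unfold Inv
      rw [h0, h0, hg, Nat.zero_div]
      refine ⟨?_, ?_, ?_⟩
      · push_cast; nlinarith
      · push_cast; nlinarith
      · push_cast; nlinarith
    · funext x a
      unfold axis disp
      simp
  · rintro m B A ⟨c, hc, -, rfl⟩ x l a
    have := axis_lip hN0 hR hw hc x l a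
    push_cast at this
    have e : (4 : ℝ) * 1000 * w / R = 4000 * w / R := by norm_num
    rw [e] at this
    exact this
  · rintro m B A ⟨c, hc, hI, rfl⟩ S hS hSS
    obtain ⟨h1, h2, -⟩ := hI 0
    have hr : Rk 1000 R 0 = R := by simp [Rk]
    have hw0 : wk 1000 w 0 = w := by simp [wk]
    have h3 : S.card ≤ tube R w tm ps c 0 (m / R) B + tube R w tm ps c 0 (m / R + 1) B := by
      unfold tube
      refine le_trans (card_le_card ?_) (card_union_le _ _)
      intro o ho
      obtain ⟨a1, a2, a3⟩ := hSS o ho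
      have h4 : tm o / R = m / R ∨ tm o / R = m / R + 1 := by
        have := idx_step hN0 hR a1 a2 0
        rwa [hr] at this
      rw [mem_union, mem_filter, mem_filter, hr, hw0]
      rcases h4 with e | e
      · left; exact ⟨hS ho, e, a3⟩
      · right; exact ⟨hS ho, e, a3⟩
    have h3' : (S.card : ℝ) ≤ tube R w tm ps c 0 (m / R) B + tube R w tm ps c 0 (m / R + 1) B := by
      exact_mod_cast h3
    rw [hr] at h1 h2
    have h5 : (m : ℝ) < (m / R : ℕ) * (R : ℕ) + R := by
      have := Nat.lt_mul_div_succ m hR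
      have h : (m : ℝ) < (R : ℕ) * ((m / R : ℕ) + 1) := by exact_mod_cast this
      linarith
    have h6 : b * ((m : ℝ) - (m / R : ℕ) * (R : ℕ)) ≤ b * R :=
      mul_le_mul_of_nonneg_left (by linarith) hb.le
    have h7 : b * ((m : ℝ) - (m / R : ℕ) * (R : ℕ) + R) ≤ b * (2 * R) :=
      mul_le_mul_of_nonneg_left (by linarith) hb.le
    have h8 : 0 ≤ b * R := by positivity
    linarith
  · rintro m B A ⟨c, hc, hI, rfl⟩ m' B' h1 h2 hB hcard
    obtain ⟨c', hc', hI', hag⟩ := levels hN hn hR hw hb hc h1 h2 hB hcard hI m' le_rfl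
    refine ⟨fun x a => axis R w c' 0 x a, ?_, c', hc', fun k => hI' k (by omega), rfl⟩
    intro x hx
    funext a
    refine (axis_congr (fun k' _ => ?_) a).symm
    have h3 : x / Rk 1000 R k' ≤ m / Rk 1000 R k' + 1 := by
      calc x / Rk 1000 R k' ≤ (m + Rk 1000 R k') / Rk 1000 R k' :=
            Nat.div_le_div_right (hx.trans (Nat.add_le_add_left (le_Rk hN0 k') m))
        _ = _ := Nat.add_div_right _ (Rk_pos hN0 hR k')
    exact ⟨hag k' _ (by omega), hag k' _ (by omega)⟩

end Pool.Agent.Helper30.Perc.Steer
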