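import Pool.Agent.Helper30.Perc.Place
import Pool.Agent.Helper30.Perc.Game

/-! One turn of Maker, and the Maker side of the nonamenable theorem. -/

namespace Pool.Agent.Helper30.Perc

open Finset

variable {V : Type} [DecidableEq V] (G : SimpleGraph V) [G.LocallyFinite]

/-- all the constants of the strategy -/
structure Data (G : SimpleGraph V) [G.LocallyFinite] (o : V) (d R C0 J1 J2 r p q : ℕ)
    (h c1 A K : ℝ) (M0 : Finset (Sym2 V)) : Prop where
  hconn : G.Connected
  hd0 : 0 < d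
  hd : ∀ v, (G.neighborFinset v).card ≤ d
  hpl : Placeable G o
  hh : 0 < h
  hc1 : 0 < c1
  hA : 0 < A
  hR : 0 < R
  hiso : ∀ W : Finset V, h * W.card ≤ cut G W
  hJ1 : d * 1 ≤ c1 * J1
  hJ1' : d * (2 * A / h) ≤ c1 * J1
  hJ2 : K ≤ (1 + h / (2 * d)) ^ J2
  hM0 : (M0 : Set (Sym2 V)) ⊆ G.edgeSet
  hK : (2 * M0.card + 1) * ((2 + 2 * A) * (d + 1 : ℝ) ^ (2 * R)) < K
  hcap0 : ∀ W : Finset V, Adm o M0 W → C0 ≤ cut G W
  hp : 0 < p
  hrp : r * (J1 + J2 + M0.card) ≤ p
  hqA : (q : ℝ) ≤ A * p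
  hr1 : q + c1 * p ≤ r * (C0 / (1 + d / (h * R)))
  hr2 : c1 * (J1 + J2 + M0.card) ≤ C0 / (1 + d / (h * R))

variable {G} {o : V} {d R C0 J1 J2 r p q : ℕ} {h c1 A K : ℝ} {M0 : Finset (Sym2 V)}

lemma Data.cap (D : Data G o d R C0 J1 J2 r p q h c1 A K M0) {m : ℕ}
    {M B : Finset (Sym2 V)} (hg : Good G o M0 R m M B) (W : Finset V) (hW : Adm o M W) :
    (m : ℝ) * (C0 / (1 + d / (h * R))) ≤ cut G W := by
  have h1 := Good.cap G D.hconn d D.hd C0 D.hcap0 hg W hW
  have h2 : (R : ℝ) * m * C0 ≤ R * cut G W + d * W.card := by exact_mod_cast h1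
  have h3 := D.hiso W
  have hh := D.hh
  have hR : (0 : ℝ) < R := by exact_mod_cast D.hR
  have hden : (0 : ℝ) < 1 + d / (h * R) := by positivity
  have h4 : (W.card : ℝ) ≤ cut G W / h := by
    rw [le_div_iff₀ hh]; linarith
  have h5 : (R : ℝ) * m * C0 ≤ R * cut G W + d * (cut G W / h) := by
    have : (d : ℝ) * W.card ≤ d * (cut G W / h) := mul_le_mul_of_nonneg_left h4 (by positivity)
    linarith
  rw [mul_div_assoc', div_le_iff₀ hden]
  have h6 : (cut G W : ℝ) * (1 + d / (h * R)) = (R * cut G W + d * (cut G W / h)) / R := by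
    field_simp
  rw [h6, le_div_iff₀ hR]
  linarith

lemma Data.substeps (D : Data G o d R C0 J1 J2 r p q h c1 A K M0) {k : ℕ}
    {M B : Finset (Sym2 V)} (hg : Good G o M0 R (k * r) M B) (hM : M.card = k * p)
    (hB : B.card = k * q) (i : ℕ) :
    ∃ X : Finset (Sym2 V), X.card ≤ i * (J1 + J2 + M0.card) ∧ (X : Set (Sym2 V)) ⊆ G.edgeSet ∧
      Disjoint X (M ∪ B) ∧ Good G o M0 R (k * r + i) (M ∪ X) B := by
  induction i with
  | zero => exact ⟨∅, by simp, by simp, by simp, by simpa using hg⟩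
  | succ i ih =>
    obtain ⟨X, hX1, hX2, hX3, hX4⟩ := ih
    have hMX : (M ∪ X).card = M.card + X.card := by
      rw [card_union_of_disjoint]
      exact (disjoint_union_right.1 hX3).1.symm
    have hBM : (B.card : ℝ) ≤ A * (M ∪ X).card := by
      have h1 : (B.card : ℝ) = k * q := by exact_mod_cast hB
      have h2 : (M.card : ℝ) = k * p := by exact_mod_cast hM
      have h3 : ((M ∪ X).card : ℝ) = M.card + X.card := by exact_mod_cast hMX
      rw [h1, h3, h2]
      have h4 := mul_le_mul_of_nonneg_left D.hqA (Nat.cast_nonneg (α := ℝ) k)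
      have h5 : (0 : ℝ) ≤ A * X.card := mul_nonneg D.hA.le (by positivity)
      nlinarith
    have hcap : ∀ N : Finset V, Adm o (M ∪ X) N → (B.card : ℝ) + c1 * (M ∪ X).card ≤ cut G N := by
      intro N hN
      refine le_trans ?_ (D.cap hX4 N hN)
      have h1 : (B.card : ℝ) = k * q := by exact_mod_cast hB
      have h2 : (M.card : ℝ) = k * p := by exact_mod_cast hM
      have h3 : ((M ∪ X).card : ℝ) = M.card + X.card := by exact_mod_cast hMX
      have h4 : (X.card : ℝ) ≤ i * (J1 + J2 + M0.card) := by exact_mod_cast hX1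
      have h5 := mul_le_mul_of_nonneg_left D.hr1 (Nat.cast_nonneg (α := ℝ) k)
      have h6 := mul_le_mul_of_nonneg_left D.hr2 (Nat.cast_nonneg (α := ℝ) i)
      have h7 := mul_le_mul_of_nonneg_left h4 D.hc1.le
      rw [h1, h3, h2]
      push_cast
      nlinarith
    obtain ⟨X', hX1', hX2', hX3', hX4'⟩ := substep G D.hconn d D.hd0 D.hd o D.hpl h c1 A D.hh
      D.hc1 D.hA K J1 J2 D.hiso D.hJ1 D.hJ1' D.hJ2 M0 D.hM0 R (k * r + i) D.hR D.hK (M ∪ X) B hX4
      hBM hcap
    refine ⟨X ∪ X', ?_, ?_, ?_, ?_⟩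
    · refine (card_union_le _ _).trans ?_
      calc X.card + X'.card ≤ i * (J1 + J2 + M0.card) + (J1 + J2 + M0.card) := by omega
        _ = _ := by ring
    · rw [coe_union]; exact Set.union_subset hX2 hX2'
    · rw [disjoint_union_left]
      refine ⟨hX3, ?_⟩
      refine Disjoint.mono_right ?_ hX3'
      exact union_subset_union subset_union_left (Subset.refl _)
    · rw [← union_assoc]
      exact hX4'

lemma Good.mono {R m : ℕ} {M M' B B' : Finset (Sym2 V)}
    (hg : Good G o M0 R m M B) (hMM : M ⊆ M') (hM' : (M' : Set (Sym2 V)) ⊆ G.edgeSet)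
    (hd : Disjoint M' B') : Good G o M0 R m M' B' := by
  obtain ⟨φ, h1, h2, h3⟩ := hg.fam
  exact ⟨hM', hd, φ, fun i a b hab => hMM (h1 i a b hab), fun i => reach_mono hMM (h2 i), h3⟩

lemma good_zero : Good G o M0 R 0 ∅ ∅ :=
  ⟨by simp, by simp, fun i => i.elim0, fun i => i.elim0, fun i => i.elim0, fun i => i.elim0⟩

lemma Data.edge_inf [Infinite V] (D : Data G o d R C0 J1 J2 r p q h c1 A K M0) :
    G.edgeSet.Infinite := by
  intro hfin
  obtain ⟨W, hW⟩ := Infinite.exists_subset_card_eq V (⌊(hfin.toFinset.card : ℝ) / h⌋₊ + 1)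
  have h1 := D.hiso W
  have h2 : cut G W ≤ hfin.toFinset.card := by
    rw [← card_bdE]
    refine card_le_card ?_
    intro e he
    rw [mem_bdE] at he
    obtain ⟨a, -, b, -, hab, rfl⟩ := he
    simpa using hab
  have h3 : (cut G W : ℝ) ≤ hfin.toFinset.card := by exact_mod_cast h2
  have h4 : (hfin.toFinset.card : ℝ) / h < W.card := by
    rw [hW]
    push_cast
    exact Nat.lt_floor_add_one _
  rw [div_lt_iff₀ D.hh] at h4
  linarith

theorem Data.turn [Infinite V] (D : Data G o d R C0 J1 J2 r p q h c1 A K M0) {k : ℕ}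
    {M B : Finset (Sym2 V)} (hg : Good G o M0 R (k * r) M B) (hM : M.card = k * p)
    (hB : B.card = k * q) :
    ∃ X : Finset (Sym2 V), X.card = p ∧ (X : Set (Sym2 V)) ⊆ G.edgeSet ∧
      Disjoint (X : Set (Sym2 V)) ((M : Set (Sym2 V)) ∪ (B : Set (Sym2 V))) ∧
      Good G o M0 R ((k + 1) * r) (M ∪ X) B := by
  obtain ⟨X, hX1, hX2, hX3, hX4⟩ := D.substeps hg hM hB r
  obtain ⟨Y, hY1, hY2, hY3, hY4⟩ := exists_move D.edge_inf X (M ∪ B) p hX2
    (by exact_mod_cast hX3) (hX1.trans D.hrp)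
  refine ⟨Y, hY2, hY3, ?_, ?_⟩
  · rw [coe_union] at hY4
    exact hY4
  · have h1 : (k + 1) * r = k * r + r := by ring
    rw [h1]
    have h2 : Disjoint Y (M ∪ B) := by exact_mod_cast hY4
    refine hX4.mono (union_subset_union (Subset.refl _) hY1) ?_ ?_
    · rw [coe_union]; exact Set.union_subset hg.hM hY3
    · rw [disjoint_union_left]
      exact ⟨hg.hdisj, (disjoint_union_right.1 h2).2⟩

theorem Data.makerWins [Infinite V] (D : Data G o d R C0 J1 J2 r p q h c1 A K M0) :
    MakerWins G o p q := by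
  refine makerWins_of_invariant G o p q (fun k M B => Good G o M0 R (k * r) M B ∧
    M.card = k * p ∧ B.card = k * q) ?_ ?_ ?_
  · refine ⟨?_, by simp, by simp⟩
    rw [Nat.zero_mul]
    exact good_zero
  · rintro k M B ⟨hg, hM, hB⟩
    obtain ⟨X, hX1, hX2, hX3, hX4⟩ := D.turn hg hM hB
    refine ⟨X, hX1, hX2, hX3, ?_⟩
    intro M' B' Y hM' hB' hY1 hY2 hY3
    have hM'' : M' = M ∪ X := by
      apply coe_injective; rw [hM', coe_union]
    have hB'' : B' = B ∪ Y := by
      apply coe_injective; rw [hB', coe_union]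
    subst hM'' hB''
    have hd1 : Disjoint M X := by
      rw [Set.disjoint_union_right] at hX3
      exact_mod_cast hX3.1.symm
    rw [Set.disjoint_union_right] at hY3
    have hd2 : Disjoint B Y := by exact_mod_cast hY3.2.symm
    have hd3 : Disjoint (M ∪ X) Y := by exact_mod_cast hY3.1.symm
    refine ⟨hX4.mono (Subset.refl _) hX4.hM ?_, ?_, ?_⟩
    · rw [disjoint_union_right]
      exact ⟨hX4.hdisj, hd3⟩
    · rw [card_union_of_disjoint hd1, hM, hX1]; ring
    · rw [card_union_of_disjoint hd2, hB, hY1]; ring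
  · rintro k M B ⟨hg, hM, hB⟩ hfin
    set W : Finset V := hfin.toFinset with hW
    have hmem : ∀ v, v ∈ W ↔ (G.deleteEdges (B : Set (Sym2 V))).Reachable o v := by
      intro v; rw [hW, Set.Finite.mem_toFinset]; rfl
    have hoW : o ∈ W := (hmem o).2 (SimpleGraph.Reachable.refl o)
    have hadm : Adm o M W := by
      refine ⟨hoW, ?_⟩
      intro a b hab ha
      rw [hmem] at ha ⊢
      refine ha.trans (SimpleGraph.Adj.reachable ?_)
      rw [SimpleGraph.deleteEdges_adj]
      refine ⟨by simpa using hg.hM (mem_coe.2 hab), ?_⟩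
      intro hb
      exact (disjoint_left.1 hg.hdisj) hab (by exact_mod_cast hb)
    have h1 : cut G W ≤ B.card := by
      rw [← card_bdE]
      refine card_le_card ?_
      intro e he
      rw [mem_bdE] at he
      obtain ⟨a, ha, b, hb, hab, rfl⟩ := he
      by_contra hcon
      apply hb
      rw [hmem] at ha ⊢
      refine ha.trans (SimpleGraph.Adj.reachable ?_)
      rw [SimpleGraph.deleteEdges_adj]
      exact ⟨hab, by exact_mod_cast hcon⟩
    have h2 : (cut G W : ℝ) ≤ k * q := by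
      have : (cut G W : ℝ) ≤ B.card := by exact_mod_cast h1
      rw [hB] at this
      exact_mod_cast this
    rcases Nat.eq_zero_or_pos k with hk | hk
    · subst hk
      have h3 := D.hiso W
      have h4 : (0 : ℝ) < W.card := by exact_mod_cast card_pos.2 ⟨o, hoW⟩
      have h5 := mul_pos D.hh h4
      simp at h2
      rw [h2] at h3
      push_cast at h3
      linarith
    · have h3 := D.cap hg W hadm
      have hkR : (0 : ℝ) < k := by exact_mod_cast hk
      have h4 := mul_le_mul_of_nonneg_left D.hr1 hkR.le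
      have h5 : (0 : ℝ) < c1 * p := mul_pos D.hc1 (by exact_mod_cast D.hp)
      have h6 := mul_pos hkR h5
      push_cast at h3
      nlinarith

end Pool.Agent.Helper30.Perc
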